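import Pool.Agent.TH638.Skew.Jets

/-!
The circle coordinates and the defects of the monomials.
-/

namespace Pool.Agent.TH638.Skew

open Complex Filter Topology Set
open scoped ComplexConjugate ContDiff

noncomputable section

/-- The coefficient of `e^{it}` in `w`. -/
def cA (k : K) : ℂ := (k.1.1 - I * k.2.1.1) / 2
/-- The coefficient of `e^{-it}` in `w`. -/
def cB (k : K) : ℂ := (k.1.1 + I * k.2.1.1) / 2
/-- The coefficient of `e^{it}` in `z`. -/
def cC (k : K) : ℂ := (k.1.2 - I * k.2.1.2) / 2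
/-- `e^{ih}`. -/
def er (k : K) : ℂ := k.2.2.1 + I * k.2.2.2
/-- `e^{-ih}`. -/
def er' (k : K) : ℂ := k.2.2.1 - I * k.2.2.2

lemma cA_cont : Continuous cA := by unfold cA; fun_prop
lemma cB_cont : Continuous cB := by unfold cB; fun_prop
lemma cC_cont : Continuous cC := by unfold cC; fun_prop
lemma c2_cont : Continuous c2 := by unfold c2; fun_prop

lemma conj_cC (k : K) : conj (cC k) = (k.1.2 + I * k.2.1.2) / 2 := by
  have h2 : conj (2 : ℂ) = 2 := map_ofNat _ 2
  simp only [cC, map_div₀, map_sub, map_mul, conj_ofReal, conj_I, h2]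
  ring

lemma w_px (k : K) : (px k).1 = cA k * er k + cB k * er' k := by
  simp only [px, cA, cB, er, er', Prod.fst_add, Prod.smul_fst, Complex.real_smul]
  linear_combination (k.2.2.2 * k.2.1.1 : ℂ) * I_sq

lemma w_py (k : K) : (py k).1 = cA k * er' k + cB k * er k := by
  simp only [py, cA, cB, er, er', Prod.fst_sub, Prod.smul_fst, Complex.real_smul]
  linear_combination (-(k.2.2.2 * k.2.1.1) : ℂ) * I_sq

lemma w_dx (k : K) : (dx k).1 = I * (cA k * er k - cB k * er' k) := by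
  simp only [dx, cA, cB, er, er', Prod.fst_sub, Prod.smul_fst, Complex.real_smul]
  linear_combination ((k.2.2.1 * k.2.1.1) - k.2.2.2 * k.1.1 : ℂ) * I_sq

lemma w_dy (k : K) : (dy k).1 = I * (cA k * er' k - cB k * er k) := by
  simp only [dy, cA, cB, er, er', Prod.fst_add, Prod.smul_fst, Complex.real_smul]
  linear_combination ((k.2.2.1 * k.2.1.1) + k.2.2.2 * k.1.1 : ℂ) * I_sq

lemma z_px (k : K) : ((px k).2 : ℂ) = cC k * er k + conj (cC k) * er' k := by
  rw [conj_cC]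
  simp only [px, cC, er, er', Prod.snd_add, Prod.smul_snd, smul_eq_mul]
  push_cast
  linear_combination (k.2.2.2 * k.2.1.2 : ℂ) * I_sq

lemma z_py (k : K) : ((py k).2 : ℂ) = cC k * er' k + conj (cC k) * er k := by
  rw [conj_cC]
  simp only [py, cC, er, er', Prod.snd_sub, Prod.smul_snd, smul_eq_mul]
  push_cast
  linear_combination (-(k.2.2.2 * k.2.1.2) : ℂ) * I_sq

lemma z_dx (k : K) : ((dx k).2 : ℂ) = I * (cC k * er k - conj (cC k) * er' k) := by
  rw [conj_cC]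
  simp only [dx, cC, er, er', Prod.snd_sub, Prod.smul_snd, smul_eq_mul]
  push_cast
  linear_combination ((k.2.2.1 * k.2.1.2) - k.2.2.2 * k.1.2 : ℂ) * I_sq

lemma z_dy (k : K) : ((dy k).2 : ℂ) = I * (cC k * er' k - conj (cC k) * er k) := by
  rw [conj_cC]
  simp only [dy, cC, er, er', Prod.snd_add, Prod.smul_snd, smul_eq_mul]
  push_cast
  linear_combination ((k.2.2.1 * k.2.1.2) + k.2.2.2 * k.1.2 : ℂ) * I_sq

lemma er_mul {k : K} (hk : k ∈ KK) : er k * er' k = 1 := by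
  have h : ((k.2.2.1 ^ 2 + k.2.2.2 ^ 2 : ℝ) : ℂ) = 1 := by rw [hk.2.2.2.1]; simp
  push_cast at h
  rw [er, er']
  linear_combination h - (k.2.2.2 ^ 2 : ℂ) * I_sq

lemma c2_eq (k : K) : (c2 k : ℂ) = (er k ^ 2 + er' k ^ 2) / 2 := by
  rw [er, er', c2]
  push_cast
  linear_combination (-(k.2.2.2 ^ 2) : ℂ) * I_sq

lemma s2_eq (k : K) : (2 * k.2.2.1 * k.2.2.2 : ℂ) = (er k ^ 2 - er' k ^ 2) / (2 * I) := by
  have hI : (2 * I : ℂ) ≠ 0 := mul_ne_zero two_ne_zero I_ne_zero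
  rw [eq_div_iff hI, er, er']
  ring

lemma s2_half (k : K) : (k.2.2.1 * k.2.2.2 : ℂ) = (er k ^ 2 - er' k ^ 2) / (2 * I) / 2 := by
  rw [← s2_eq]; ring

lemma fderiv_w (p v : P) : fderiv ℝ (fun p : P => p.1) p v = v.1 := by
  rw [hasFDerivAt_fst.fderiv]; rfl

lemma fderiv_z (p v : P) : fderiv ℝ (fun p : P => (p.2 : ℂ)) p v = v.2 := by
  have h1 : HasFDerivAt (fun p : P => (p.2 : ℂ))
      (ofRealCLM.comp (ContinuousLinearMap.snd ℝ ℂ ℝ)) p :=
    ofRealCLM.hasFDerivAt.comp p hasFDerivAt_snd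
  rw [h1.fderiv]; rfl

lemma fderiv_mul' {f g : P → ℂ} (hf : Good f) (hg : Good g) (p v : P) :
    fderiv ℝ (fun p => f p * g p) p v = f p * fderiv ℝ g p v + g p * fderiv ℝ f p v := by
  rw [fderiv_fun_mul (hf.diff p) (hg.diff p)]
  simp

lemma fderiv_pow' {f : P → ℂ} (hf : Good f) (n : ℕ) (p v : P) :
    fderiv ℝ (fun p => f p ^ n) p v = n * f p ^ (n - 1) * fderiv ℝ f p v := by
  rw [fderiv_fun_pow n (hf.diff p)]
  simp [mul_assoc]

lemma fderiv_conj {f : P → ℂ} (hf : Good f) (p v : P) :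
    fderiv ℝ (fun p => conj (f p)) p v = conj (fderiv ℝ f p v) := by
  have h1 : HasFDerivAt (fun p => conj (f p)) ((conjCLE : ℂ →L[ℝ] ℂ).comp (fderiv ℝ f p)) p :=
    (conjCLE : ℂ →L[ℝ] ℂ).hasFDerivAt.comp p (hf.diff p).hasFDerivAt
  rw [h1.fderiv]
  rfl

lemma defect_conj {f : P → ℂ} {D : K → ℂ} (hf : Good f) (h : HasDefect f D) :
    HasDefect (fun p => conj (f p)) (fun k => conj (D k)) := by
  refine ⟨Complex.continuous_conj.comp h.1, ?_⟩
  intro k hk
  have := congrArg conj (h.2 k hk)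
  rw [fderiv_conj hf, fderiv_conj hf]
  have h2 : conj (2 : ℂ) = 2 := map_ofNat _ 2
  simp only [map_sub, map_mul, map_add, conj_ofReal, map_pow, h2] at this
  exact this

lemma good_w (n : ℕ) : Good (fun p : P => p.1 ^ n) := good_fst.pow n

lemma good_z (n : ℕ) : Good (fun p : P => (p.2 : ℂ) ^ n) := good_snd.pow n

lemma defect_w6 : HasDefect (fun p : P => p.1 ^ 6) (fun k => 2 * I * S6 (c2 k) (cA k) (cB k)) := by
  refine ⟨by
    have := S6_cont c2_cont cA_cont cB_cont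
    fun_prop, ?_⟩
  intro k hk
  beta_reduce
  rw [fderiv_pow' good_fst, fderiv_pow' good_fst, fderiv_w, fderiv_w, S6, c2_eq, s2_half, s2_eq,
    w_px, w_py, w_dx, w_dy]
  have := mode_w6 (cA k) (cB k) (er k) (er' k) (er_mul hk)
  push_cast
  exact this

lemma defect_w4 : HasDefect (fun p : P => p.1 ^ 4) (fun k => 4 * I * (cA k ^ 4 - cB k ^ 4)) := by
  refine ⟨by
    have := cA_cont
    have := cB_cont
    fun_prop, ?_⟩
  intro k hk
  beta_reduce
  rw [fderiv_pow' good_fst, fderiv_pow' good_fst, fderiv_w, fderiv_w, c2_eq, s2_half, s2_eq,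
    w_px, w_py, w_dx, w_dy]
  have := mode_w4 (cA k) (cB k) (er k) (er' k) (er_mul hk)
  push_cast
  exact this

lemma defect_w8 : HasDefect (fun p : P => p.1 ^ 8) (fun k => 2 * I * S8 (c2 k) (cA k) (cB k)) := by
  refine ⟨by
    have := S8_cont c2_cont cA_cont cB_cont
    fun_prop, ?_⟩
  intro k hk
  beta_reduce
  rw [fderiv_pow' good_fst, fderiv_pow' good_fst, fderiv_w, fderiv_w, S8, c2_eq, s2_half, s2_eq,
    w_px, w_py, w_dx, w_dy]
  have := mode_w8 (cA k) (cB k) (er k) (er' k) (er_mul hk)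
  push_cast
  exact this

lemma defect_w10 :
    HasDefect (fun p : P => p.1 ^ 10) (fun k => 2 * I * S10 (c2 k) (cA k) (cB k)) := by
  refine ⟨by
    have := S10_cont c2_cont cA_cont cB_cont
    fun_prop, ?_⟩
  intro k hk
  beta_reduce
  rw [fderiv_pow' good_fst, fderiv_pow' good_fst, fderiv_w, fderiv_w, S10, c2_eq, s2_half, s2_eq,
    w_px, w_py, w_dx, w_dy]
  have := mode_w10 (cA k) (cB k) (er k) (er' k) (er_mul hk)
  push_cast
  exact this

lemma defect_z4 : HasDefect (fun p : P => (p.2 : ℂ) ^ 4)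
    (fun k => 4 * I * (cC k ^ 4 - conj (cC k) ^ 4)) := by
  refine ⟨by
    have := cC_cont
    have h := Complex.continuous_conj.comp cC_cont
    simp only [Function.comp_def] at h
    fun_prop, ?_⟩
  intro k hk
  beta_reduce
  rw [fderiv_pow' good_snd, fderiv_pow' good_snd, fderiv_z, fderiv_z, c2_eq, s2_half, s2_eq,
    z_px, z_py, z_dx, z_dy]
  have := mode_w4 (cC k) (conj (cC k)) (er k) (er' k) (er_mul hk)
  push_cast
  exact this

lemma defect_w3z : HasDefect (fun p : P => p.1 ^ 3 * (p.2 : ℂ))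
    (fun k => 4 * I * (cA k ^ 3 * cC k - conj (cC k) * cB k ^ 3)) := by
  refine ⟨by
    have := cA_cont
    have := cB_cont
    have := cC_cont
    have h := Complex.continuous_conj.comp cC_cont
    simp only [Function.comp_def] at h
    fun_prop, ?_⟩
  intro k hk
  beta_reduce
  rw [fderiv_mul' (good_w 3) good_snd, fderiv_mul' (good_w 3) good_snd, fderiv_pow' good_fst,
    fderiv_pow' good_fst, fderiv_w, fderiv_w, fderiv_z, fderiv_z, c2_eq, s2_half, s2_eq,
    w_px, w_py, w_dx, w_dy, z_px, z_py, z_dx, z_dy]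
  have := mode_w3z (cA k) (cB k) (cC k) (conj (cC k)) (er k) (er' k) (er_mul hk)
  push_cast
  linear_combination this

/-! ### The circle -/

lemma cC_sq {k : K} (hk : k ∈ KK) : cC k ^ 2 = - (cA k * conj (cB k)) := by
  obtain ⟨h1, h2, h3, -, -, -⟩ := hk
  obtain ⟨⟨mw, mz⟩, ⟨uw, uz⟩, ch, sh⟩ := k
  simp only at h1 h2 h3
  rw [normSq_apply] at h1 h2
  have hB : conj (cB ((mw, mz), (uw, uz), ch, sh)) = (conj mw - I * conj uw) / 2 := by
    have h2 : conj (2 : ℂ) = 2 := map_ofNat _ 2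
    simp only [cB, map_div₀, map_add, map_mul, conj_I, h2]
    ring
  rw [hB]
  simp only [cC, cA]
  apply Complex.ext
  · simp [pow_two]
    simp at h3
    linear_combination (-1 / 4 : ℝ) * h2 + (1 / 4 : ℝ) * h1
  · simp [pow_two]
    simp at h3
    linear_combination (-1 / 2 : ℝ) * h3

lemma normAB {k : K} (hk : k ∈ KK) : ‖cA k‖ + ‖cB k‖ = 1 := by
  have hC := cC_sq hk
  have hn := norm_C hC
  obtain ⟨h1, h2, h3, -, -, -⟩ := hk
  obtain ⟨⟨mw, mz⟩, ⟨uw, uz⟩, ch, sh⟩ := k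
  simp only at h1 h2 h3
  have e1 : ‖cA ((mw, mz), (uw, uz), ch, sh)‖ ^ 2 + ‖cB ((mw, mz), (uw, uz), ch, sh)‖ ^ 2 =
      (normSq mw + normSq uw) / 2 := by
    rw [← normSq_eq_norm_sq, ← normSq_eq_norm_sq, cA, cB, normSq_div, normSq_div, normSq_apply,
      normSq_apply, normSq_apply, normSq_apply, normSq_apply]
    simp
    ring
  have e2 : ‖cC ((mw, mz), (uw, uz), ch, sh)‖ ^ 2 = (mz ^ 2 + uz ^ 2) / 4 := by
    rw [← normSq_eq_norm_sq, cC, normSq_div, normSq_apply, normSq_apply]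
    simp
    ring
  set a := ‖cA ((mw, mz), (uw, uz), ch, sh)‖
  set b := ‖cB ((mw, mz), (uw, uz), ch, sh)‖
  have ha : 0 ≤ a := norm_nonneg _
  have hb : 0 ≤ b := norm_nonneg _
  have : (a + b) ^ 2 = 1 := by
    rw [e2] at hn
    linear_combination e1 - 2 * hn + (1 / 2 : ℝ) * h1 + (1 / 2 : ℝ) * h2
  nlinarith

lemma bw_eq (k : K) : bw (cA k) (cB k) (cC k) = (nb k).1 := by
  rw [bw, conj_cC]
  simp only [cA, cB, cC, nb]
  ring

lemma bz_eq (k : K) : bz (cA k) (cB k) = (nb k).2 := by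
  obtain ⟨⟨mw, mz⟩, ⟨uw, uz⟩, ch, sh⟩ := k
  simp only [bz, cA, cB, nb]
  rw [normSq_div, normSq_div, normSq_apply, normSq_apply, normSq_apply]
  simp
  ring

lemma c2_mem {k : K} (hk : k ∈ KK) : 0 ≤ c2 k ∧ c2 k ≤ 1 := by
  obtain ⟨-, -, -, h4, h5, h6⟩ := hk
  rw [c2]
  constructor
  · nlinarith
  · nlinarith

end

end Pool.Agent.TH638.Skew
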