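import Pool.Agent.TH638.Skew.Quad

/-!
The compactness argument in the parameter `δ`.
-/

namespace Pool.Agent.TH638.Skew

open Complex Filter Topology Set
open scoped ComplexConjugate ContDiff

noncomputable section

lemma KK_compact : IsCompact KK := by
  apply Metric.isCompact_of_isClosed_isBounded
  · have hn := continuous_normSq
    refine IsClosed.and (isClosed_eq ?_ (by fun_prop)) ?_
    · exact (hn.comp (by fun_prop : Continuous fun k : K => k.1.1)).add (by fun_prop)
    refine IsClosed.and (isClosed_eq ?_ (by fun_prop)) ?_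
    · exact (hn.comp (by fun_prop : Continuous fun k : K => k.2.1.1)).add (by fun_prop)
    refine IsClosed.and (isClosed_eq ?_ (by fun_prop)) ?_
    · have h : Continuous (fun k : K => conj k.1.1) := Complex.continuous_conj.comp (by fun_prop)
      exact (Complex.continuous_re.comp (h.mul (by fun_prop))).add (by fun_prop)
    refine IsClosed.and (isClosed_eq (by fun_prop) (by fun_prop)) ?_
    exact IsClosed.and (isClosed_le (by fun_prop) (by fun_prop))
      (isClosed_le (by fun_prop) (by fun_prop))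
  · refine (Metric.isBounded_closedBall (x := (0 : K)) (r := 1)).subset ?_
    rintro ⟨⟨mw, mz⟩, ⟨uw, uz⟩, ch, sh⟩ ⟨h1, h2, h3, h4, h5, h6⟩
    simp only at h1 h2 h3 h4 h5 h6
    have n1 := normSq_nonneg mw
    have n2 := normSq_nonneg uw
    have b1 : ‖mw‖ ≤ 1 := by
      have : ‖mw‖ ^ 2 ≤ 1 := by rw [← normSq_eq_norm_sq]; nlinarith [sq_nonneg mz]
      nlinarith [norm_nonneg mw]
    have b2 : ‖uw‖ ≤ 1 := by
      have : ‖uw‖ ^ 2 ≤ 1 := by rw [← normSq_eq_norm_sq]; nlinarith [sq_nonneg uz]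
      nlinarith [norm_nonneg uw]
    have b3 : ‖mz‖ ≤ 1 := by rw [Real.norm_eq_abs]; exact abs_le_one_iff_mul_self_le_one.mpr (by nlinarith)
    have b4 : ‖uz‖ ≤ 1 := by rw [Real.norm_eq_abs]; exact abs_le_one_iff_mul_self_le_one.mpr (by nlinarith)
    have b5 : ‖ch‖ ≤ 1 := by rw [Real.norm_eq_abs]; exact abs_le_one_iff_mul_self_le_one.mpr (by nlinarith)
    have b6 : ‖sh‖ ≤ 1 := by rw [Real.norm_eq_abs]; exact abs_le_one_iff_mul_self_le_one.mpr (by nlinarith)
    rw [mem_closedBall_zero_iff, Prod.norm_def, Prod.norm_def, Prod.norm_def, Prod.norm_def,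
      Prod.norm_def]
    exact max_le (max_le b1 b3) (max_le (max_le b2 b4) (max_le b5 b6))

lemma co_zero {k : K} (hk : k ∈ KK) (hsh : k.2.2.2 ≠ 0) {α pu qu pb qb : ℝ}
    (h : co k α pu qu pb qb = 0) : α = 0 ∧ pu = 0 ∧ qu = 0 ∧ pb = 0 ∧ qb = 0 := by
  have hch := (ch_pos hk).ne'
  simp only [co, Prod.mk_eq_zero] at h
  obtain ⟨h1, h2, h3, h4, h5⟩ := h
  have e1 : pu - qu = 0 := by
    have : (k.2.2.2 ^ 2 * k.2.2.1 ^ 2) * (pu - qu) = 0 := by linarith
    exact (mul_eq_zero.mp this).resolve_left (mul_ne_zero (pow_ne_zero 2 hsh) (pow_ne_zero 2 hch))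
  have e2 : pu + qu = 0 := by
    have : k.2.2.2 * (pu + qu) = 0 := by linarith
    exact (mul_eq_zero.mp this).resolve_left hsh
  have e3 : pb + qb = 0 := by
    have : k.2.2.2 * (pb + qb) = 0 := by linarith
    exact (mul_eq_zero.mp this).resolve_left hsh
  have e4 : α = 0 := by
    rw [e1] at h2
    simp at h2
    exact h2.resolve_right hsh
  exact ⟨e4, by linarith, by linarith, by linarith, by linarith⟩

lemma defect_cw4 : HasDefect (fun p : P => conj (p.1 ^ 4))
    (fun k => conj (4 * I * (cA k ^ 4 - cB k ^ 4))) :=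
  defect_conj (good_w 4) defect_w4

lemma good_w3z : Good (fun p : P => p.1 ^ 3 * (p.2 : ℂ)) := (good_w 3).mul good_snd

/-- For small `δ > 0` there is no nontrivial relation. -/
theorem exists_delta {ε : ℝ} (hstar : ∀ (A B C : ℂ) (c : ℝ), C ^ 2 = - (A * conj B) →
    ‖A‖ + ‖B‖ = 1 → 0 ≤ c → c ≤ 1 → ¬ (HH ε c A B C = 0 ∧ GG ε c A B C = 0)) :
    ∃ δ : ℝ, 0 < δ ∧ ∀ k ∈ KK, k.2.2.2 ≠ 0 → ∀ α pu qu pb qb : ℝ,
      rel (fun p => p.1 * (p.2 : ℂ)) k α pu qu pb qb +
        δ * (-14 * I * ε * rel (fun p => p.1 ^ 8) k α pu qu pb qb) = 0 →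
      rel (fun p => p.1 * p.1) k α pu qu pb qb +
        δ * (10 * I * rel (fun p => p.1 ^ 6) k α pu qu pb qb) = 0 →
      (rel (fun p => (p.2 : ℂ) * (p.2 : ℂ)) k α pu qu pb qb).re +
        δ * (-(32 * (rel (fun p => (p.2 : ℂ) ^ 4) k α pu qu pb qb).re +
          44 * ε ^ 2 * (rel (fun p => p.1 ^ 10) k α pu qu pb qb).im)) = 0 →
      rel (fun p => p.1 ^ 3 * (p.2 : ℂ)) k α pu qu pb qb +
        ε * (rel (fun p => p.1 ^ 6) k α pu qu pb qb +
          rel (fun p => conj (p.1 ^ 4)) k α pu qu pb qb) = 0 →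
      α = 0 ∧ pu = 0 ∧ qu = 0 ∧ pb = 0 ∧ qb = 0 := by
  obtain ⟨Φ6, hΦ6⟩ := (good_w 6).rep defect_w6
  obtain ⟨Φ8, hΦ8⟩ := (good_w 8).rep defect_w8
  obtain ⟨Φ10, hΦ10⟩ := (good_w 10).rep defect_w10
  obtain ⟨Φz, hΦz⟩ := (good_z 4).rep defect_z4
  obtain ⟨Φh, hΦh⟩ := good_w3z.rep defect_w3z
  obtain ⟨Φc, hΦc⟩ := ((good_w 4).conj).rep defect_cw4
  -- the components
  set g1 : K × Co → ℂ := fun q => -14 * I * ε * Φ8 q with hg1
  set g2 : K × Co → ℂ := fun q => 10 * I * Φ6 q with hg2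
  set g3 : K × Co → ℝ := fun q => -(32 * (Φz q).re + 44 * ε ^ 2 * (Φ10 q).im) with hg3
  set e4 : K × Co → ℝ := fun q => cb q.1 (g1 q) (g2 q) (g3 q) with he4
  set e5 : K × Co → ℂ := fun q => Φh q + ε * (Φ6 q + Φc q) with he5
  have c1 : Continuous g1 := by
    have := hΦ8.cont
    rw [hg1]; fun_prop
  have c2' : Continuous g2 := by
    have := hΦ6.cont
    rw [hg2]; fun_prop
  have c3 : Continuous g3 := by
    have h1 := Complex.continuous_re.comp hΦz.cont
    have h2 := Complex.continuous_im.comp hΦ10.cont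
    simp only [Function.comp_def] at h1 h2
    rw [hg3]; fun_prop
  have c5 : Continuous e5 := by
    have h1 := hΦh.cont
    have h2 := hΦ6.cont
    have h3 := hΦc.cont
    rw [he5]; fun_prop
  have cnb : Continuous (fun q : K × Co => nb q.1) := nb_cont.comp continuous_fst
  have c4 : Continuous e4 := by
    rw [he4]
    unfold cb
    have h0 : Continuous (fun q : K × Co => (nb q.1).1) := continuous_fst.comp cnb
    have h0' : Continuous (fun q : K × Co => (nb q.1).2) := continuous_snd.comp cnb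
    have h1 := Complex.continuous_conj.comp h0
    have h2 := continuous_normSq.comp h0
    have h3 := Complex.continuous_re.comp ((h1.pow 2).mul c2')
    have h4 := Complex.continuous_re.comp (h1.mul c1)
    simp only [Function.comp_def] at h2 h3 h4
    fun_prop
  have cq1 := rep_wz.cont
  have cq2 := rep_ww.cont
  have cq3 : Continuous (fun q => (Qzz q).re) := Complex.continuous_re.comp rep_zz.cont
  -- the compact set
  set S : Set (K × Co) := KK ×ˢ Metric.sphere (0 : Co) 1 with hS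
  have hScomp : IsCompact S := KK_compact.prod (isCompact_sphere 0 1)
  set f : ℝ × (K × Co) → ℝ := fun p =>
    ‖Qwz p.2 + p.1 * g1 p.2‖ + ‖Qww p.2 + p.1 * g2 p.2‖ + |(Qzz p.2).re + p.1 * g3 p.2| +
      |e4 p.2| + ‖e5 p.2‖ with hf
  have hfc : Continuous f := by
    rw [hf]
    fun_prop
  have hf0 : ∀ q ∈ S, f (0, q) ≠ 0 := by
    intro q hq h0
    have hk : q.1 ∈ KK := hq.1
    have hn : ‖q.2‖ = 1 := by simpa using hq.2
    simp only [hf] at h0
    have p1 := norm_nonneg (Qwz q + ((0 : ℝ) : ℂ) * g1 q)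
    have p2 := norm_nonneg (Qww q + ((0 : ℝ) : ℂ) * g2 q)
    have p3 := abs_nonneg ((Qzz q).re + 0 * g3 q)
    have p4 := abs_nonneg (e4 q)
    have p5 := norm_nonneg (e5 q)
    have z1 : Qwz q = 0 := by
      have : ‖Qwz q + ((0 : ℝ) : ℂ) * g1 q‖ = 0 := by linarith
      simpa using norm_eq_zero.mp this
    have z2 : Qww q = 0 := by
      have : ‖Qww q + ((0 : ℝ) : ℂ) * g2 q‖ = 0 := by linarith
      simpa using norm_eq_zero.mp this
    have z3 : (Qzz q).re = 0 := by
      have : |(Qzz q).re + 0 * g3 q| = 0 := by linarith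
      simpa using abs_eq_zero.mp this
    have z4 : e4 q = 0 := abs_eq_zero.mp (by linarith)
    have z5 : e5 q = 0 := norm_eq_zero.mp (by linarith)
    have hq2 := Q_zero hk z1 z2 z3
    obtain ⟨k, l, v⟩ := q
    simp only at hq2 hk
    subst hq2
    have hl : l ≠ 0 := by
      rintro rfl
      have : ((0 : ℝ), (0 : ℝ × ℝ × ℝ × ℝ)) = (0 : Co) := rfl
      simp only [this, norm_zero] at hn
      norm_num at hn
    have m6 := hΦ6.main k l
    have m8 := hΦ8.main k l
    have m10 := hΦ10.main k l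
    have mz := hΦz.main k l
    have mh := hΦh.main k l
    have mc := hΦc.main k l
    have hz : ((k, l, (0 : ℝ × ℝ × ℝ × ℝ)) : K × Co) = (k, (l, 0, 0, 0, 0)) := rfl
    rw [hz] at z4 z5
    simp only [he4, he5, hg1, hg2, hg3, m6, m8, m10, mz, mh, mc] at z4 z5
    have hc2 := c2_mem hk
    apply hstar (cA k) (cB k) (cC k) (c2 k) (cC_sq hk) (normAB hk) hc2.1 hc2.2
    constructor
    · have h2 : conj (4 : ℂ) = 4 := map_ofNat _ 4
      simp only [map_mul, map_sub, map_pow, conj_I, h2] at z5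
      have : (4 * I * l) * HH ε (c2 k) (cA k) (cB k) (cC k) = 0 := by
        rw [← z5, HH, S6]
        ring
      exact (mul_eq_zero.mp this).resolve_left
        (mul_ne_zero (mul_ne_zero (by norm_num) I_ne_zero) (by exact_mod_cast hl))
    · have hr : ∀ (x : ℂ), (I * x).re = - x.im := by intro x; simp
      have hi : ∀ (x : ℂ), (I * x).im = x.re := by intro x; simp
      have t1 : ((conj (nb k).1) ^ 2 * (10 * I * (l * (2 * I * S6 (c2 k) (cA k) (cB k))))).re =
          -20 * l * ((conj (nb k).1) ^ 2 * S6 (c2 k) (cA k) (cB k)).re := by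
        rw [← re_ofReal_mul]
        congr 1
        push_cast
        linear_combination (20 * l * (conj (nb k).1 ^ 2 * S6 (c2 k) (cA k) (cB k)) : ℂ) * I_sq
      have t2 : (conj (nb k).1 * (-14 * I * ε * (l * (2 * I * S8 (c2 k) (cA k) (cB k))))).re =
          28 * ε * l * (conj (nb k).1 * S8 (c2 k) (cA k) (cB k)).re := by
        rw [← re_ofReal_mul]
        congr 1
        push_cast
        linear_combination (-28 * ε * l * (conj (nb k).1 * S8 (c2 k) (cA k) (cB k)) : ℂ) * I_sq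
      have t3 : ((l : ℂ) * (4 * I * (cC k ^ 4 - conj (cC k) ^ 4))).re = -8 * l * (cC k ^ 4).im := by
        have : ((l : ℂ) * (4 * I * (cC k ^ 4 - conj (cC k) ^ 4))) =
          ((4 * l : ℝ) : ℂ) * (I * (cC k ^ 4 - conj (cC k) ^ 4)) := by push_cast; ring
        rw [this, re_ofReal_mul, hr, sub_im, ← map_pow, conj_im]
        ring
      have t4 : ((l : ℂ) * (2 * I * S10 (c2 k) (cA k) (cB k))).im =
          2 * l * (S10 (c2 k) (cA k) (cB k)).re := by
        have : ((l : ℂ) * (2 * I * S10 (c2 k) (cA k) (cB k))) =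
          ((2 * l : ℝ) : ℂ) * (I * S10 (c2 k) (cA k) (cB k)) := by push_cast; ring
        rw [this, im_ofReal_mul, hi]
      rw [cb, t1, t2, t3, t4] at z4
      have : (2 * l) * GG ε (c2 k) (cA k) (cB k) (cC k) = 0 := by
        rw [← z4, GG, bw_eq, bz_eq]
        ring
      exact (mul_eq_zero.mp this).resolve_left (mul_ne_zero two_ne_zero hl)
  have hev := eventually_ne hScomp hfc hf0
  have h3 : ∀ᶠ e : ℝ in 𝓝[>] 0, 0 < e := eventually_mem_nhdsWithin
  obtain ⟨δ, hδ, hδ0⟩ := ((hev.filter_mono nhdsWithin_le_nhds).and h3).exists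
  refine ⟨δ, hδ0, ?_⟩
  intro k hk hsh α pu qu pb qb r1 r2 r3 r4
  by_contra hne
  set v : Co := co k α pu qu pb qb with hv
  have hv0 : v ≠ 0 := fun h => hne (co_zero hk hsh h)
  have hvn : 0 < ‖v‖ := norm_pos_iff.mpr hv0
  set t : ℝ := ‖v‖⁻¹ with ht
  have hmem : ((k, t • v) : K × Co) ∈ S := by
    refine ⟨hk, ?_⟩
    rw [mem_sphere_zero_iff_norm, norm_smul, ht, norm_inv, norm_norm, inv_mul_cancel₀ hvn.ne']
  apply hδ _ hmem
  rw [rep_wz.rel k hk hsh, hΦ8.rel k hk hsh] at r1
  rw [rep_ww.rel k hk hsh, hΦ6.rel k hk hsh] at r2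
  rw [rep_zz.rel k hk hsh, hΦz.rel k hk hsh, hΦ10.rel k hk hsh] at r3
  rw [hΦh.rel k hk hsh, hΦ6.rel k hk hsh, hΦc.rel k hk hsh] at r4
  rw [← hv] at r1 r2 r3 r4
  have s1 : Qwz (k, t • v) + δ * g1 (k, t • v) = 0 := by
    rw [hg1]
    simp only
    rw [rep_wz.smul, hΦ8.smul]
    linear_combination (t : ℂ) * r1
  have s2 : Qww (k, t • v) + δ * g2 (k, t • v) = 0 := by
    rw [hg2]
    simp only
    rw [rep_ww.smul, hΦ6.smul]
    linear_combination (t : ℂ) * r2
  have s3 : (Qzz (k, t • v)).re + δ * g3 (k, t • v) = 0 := by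
    rw [hg3]
    simp only
    rw [rep_zz.smul, hΦz.smul, hΦ10.smul, re_ofReal_mul, re_ofReal_mul, im_ofReal_mul]
    linear_combination t * r3
  have s5 : e5 (k, t • v) = 0 := by
    rw [he5]
    simp only
    rw [hΦh.smul, hΦ6.smul, hΦc.smul]
    linear_combination (t : ℂ) * r4
  have s4 : e4 (k, t • v) = 0 := by
    have hcb := cb_quad (q := (k, t • v)) hk
    have a1 : Qwz (k, t • v) = - (δ * g1 (k, t • v)) := by linear_combination s1
    have a2 : Qww (k, t • v) = - (δ * g2 (k, t • v)) := by linear_combination s2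
    have a3 : (Qzz (k, t • v)).re = - (δ * g3 (k, t • v)) := by linear_combination s3
    rw [a1, a2, a3] at hcb
    have : -δ * e4 (k, t • v) = 0 := by
      rw [← hcb, he4]
      simp only [cb]
      have b1 : (conj (nb k).1 ^ 2 * -(δ * g2 (k, t • v))).re =
          -δ * (conj (nb k).1 ^ 2 * g2 (k, t • v)).re := by
        rw [← re_ofReal_mul]; push_cast; congr 1; ring
      have b2 : (conj (nb k).1 * -(δ * g1 (k, t • v))).re =
          -δ * (conj (nb k).1 * g1 (k, t • v)).re := by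
        rw [← re_ofReal_mul]; push_cast; congr 1; ring
      rw [b1, b2]
      ring
    exact (mul_eq_zero.mp this).resolve_left (neg_ne_zero.mpr hδ0.ne')
  simp only [hf, s1, s2, s3, s4, s5]
  simp

end

end Pool.Agent.TH638.Skew
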