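import Pool.Agent.TH638.Skew.Comp

/-!
From relations on the sphere to relations on great circles.
-/

namespace Pool.Agent.TH638.Skew

open Complex Filter Topology Set
open scoped ComplexConjugate ContDiff

noncomputable section

/-- The scalar product of `ℂ × ℝ`. -/
def dot (p q : P) : ℝ := p.1.re * q.1.re + p.1.im * q.1.im + p.2 * q.2

/-- The vector product of `ℂ × ℝ`. -/
def cross (p q : P) : P :=
  (⟨p.1.im * q.2 - p.2 * q.1.im, p.2 * q.1.re - p.1.re * q.2⟩, p.1.re * q.1.im - p.1.im * q.1.re)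

lemma P_ext {p q : P} (h1 : p.1.re = q.1.re) (h2 : p.1.im = q.1.im) (h3 : p.2 = q.2) : p = q :=
  Prod.ext (Complex.ext h1 h2) h3

lemma frame_expand {a c : P} (ha : dot a a = 1) (hc : dot c c = 1) (hac : dot a c = 0) (p : P) :
    p = dot p a • a + dot p c • c + dot p (cross a c) • cross a c := by
  obtain ⟨⟨a1, a2⟩, a3⟩ := a
  obtain ⟨⟨c1, c2⟩, c3⟩ := c
  obtain ⟨⟨p1, p2⟩, p3⟩ := p
  simp only [dot] at ha hc hac
  apply P_ext
  · simp [dot, cross]
    linear_combination (-p1 * (c1 ^ 2 + c2 ^ 2 + c3 ^ 2) + (p1 * c1 + p2 * c2 + p3 * c3) * c1) * ha +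
      (-p1 + (p1 * a1 + p2 * a2 + p3 * a3) * a1) * hc +
      (p1 * (a1 * c1 + a2 * c2 + a3 * c3) - ((p1 * c1 + p2 * c2 + p3 * c3) * a1 +
        (p1 * a1 + p2 * a2 + p3 * a3) * c1)) * hac
  · simp [dot, cross]
    linear_combination (-p2 * (c1 ^ 2 + c2 ^ 2 + c3 ^ 2) + (p1 * c1 + p2 * c2 + p3 * c3) * c2) * ha +
      (-p2 + (p1 * a1 + p2 * a2 + p3 * a3) * a2) * hc +
      (p2 * (a1 * c1 + a2 * c2 + a3 * c3) - ((p1 * c1 + p2 * c2 + p3 * c3) * a2 +
        (p1 * a1 + p2 * a2 + p3 * a3) * c2)) * hac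
  · simp [dot, cross]
    linear_combination (-p3 * (c1 ^ 2 + c2 ^ 2 + c3 ^ 2) + (p1 * c1 + p2 * c2 + p3 * c3) * c3) * ha +
      (-p3 + (p1 * a1 + p2 * a2 + p3 * a3) * a3) * hc +
      (p3 * (a1 * c1 + a2 * c2 + a3 * c3) - ((p1 * c1 + p2 * c2 + p3 * c3) * a3 +
        (p1 * a1 + p2 * a2 + p3 * a3) * c3)) * hac

lemma KK_dot {k : K} (hk : k ∈ KK) :
    dot (px k) (px k) = 1 ∧ dot (dx k) (dx k) = 1 ∧ dot (px k) (dx k) = 0 ∧
    cross (px k) (dx k) = nb k ∧ dot (py k) (py k) = 1 ∧ dot (dy k) (dy k) = 1 ∧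
    dot (py k) (dy k) = 0 ∧ cross (py k) (dy k) = nb k := by
  obtain ⟨hm, hu, hmu⟩ := KK_real hk
  have hcs := hk.2.2.2.1
  have hn : nb k = (⟨k.1.1.im * k.2.1.2 - k.1.2 * k.2.1.1.im,
      k.1.2 * k.2.1.1.re - k.1.1.re * k.2.1.2⟩, k.1.1.re * k.2.1.1.im - k.1.1.im * k.2.1.1.re) :=
    P_ext (nb_re k) (nb_im k) (nb_snd k)
  obtain ⟨⟨⟨m1, m2⟩, m3⟩, ⟨⟨u1, u2⟩, u3⟩, ch, sh⟩ := k
  simp only at hm hu hmu hcs hn
  refine ⟨?_, ?_, ?_, ?_, ?_, ?_, ?_, ?_⟩
  · simp [dot, px]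
    linear_combination ch ^ 2 * hm + sh ^ 2 * hu + 2 * ch * sh * hmu + hcs
  · simp [dot, dx]
    linear_combination sh ^ 2 * hm + ch ^ 2 * hu - 2 * ch * sh * hmu + hcs
  · simp [dot, px, dx]
    linear_combination (-ch * sh) * hm + ch * sh * hu + (ch ^ 2 - sh ^ 2) * hmu
  · rw [hn]
    apply P_ext
    · simp [cross, px, dx]
      linear_combination (m2 * u3 - m3 * u2) * hcs
    · simp [cross, px, dx]
      linear_combination (m3 * u1 - m1 * u3) * hcs
    · simp [cross, px, dx]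
      linear_combination (m1 * u2 - m2 * u1) * hcs
  · simp [dot, py]
    linear_combination ch ^ 2 * hm + sh ^ 2 * hu - 2 * ch * sh * hmu + hcs
  · simp [dot, dy]
    linear_combination sh ^ 2 * hm + ch ^ 2 * hu + 2 * ch * sh * hmu + hcs
  · simp [dot, py, dy]
    linear_combination (ch * sh) * hm - ch * sh * hu + (ch ^ 2 - sh ^ 2) * hmu
  · rw [hn]
    apply P_ext
    · simp [cross, py, dy]
      linear_combination (m2 * u3 - m3 * u2) * hcs
    · simp [cross, py, dy]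
      linear_combination (m3 * u1 - m1 * u3) * hcs
    · simp [cross, py, dy]
      linear_combination (m1 * u2 - m2 * u1) * hcs

/-- Two points of the sphere with nonnegative scalar product lie on a great circle with parameters
in `KK`. -/
lemma exists_circle {x y : P} (hx : dot x x = 1) (hy : dot y y = 1) (hxy : 0 ≤ dot x y)
    (hne : x ≠ y) : ∃ k ∈ KK, k.2.2.2 ≠ 0 ∧ px k = x ∧ py k = y := by
  set t := dot x y with ht
  have hd : (x.1.re - y.1.re) ^ 2 + (x.1.im - y.1.im) ^ 2 + (x.2 - y.2) ^ 2 = 2 - 2 * t := by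
    rw [ht]
    simp only [dot] at hx hy ⊢
    linarith
  have ht1 : t < 1 := by
    by_contra h
    apply hne
    have h0 : (x.1.re - y.1.re) ^ 2 + (x.1.im - y.1.im) ^ 2 + (x.2 - y.2) ^ 2 ≤ 0 := by linarith
    have a1 : (x.1.re - y.1.re) ^ 2 = 0 := by nlinarith [sq_nonneg (x.1.re - y.1.re), sq_nonneg (x.1.im - y.1.im), sq_nonneg (x.2 - y.2)]
    have a2 : (x.1.im - y.1.im) ^ 2 = 0 := by nlinarith [sq_nonneg (x.1.re - y.1.re), sq_nonneg (x.1.im - y.1.im), sq_nonneg (x.2 - y.2)]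
    have a3 : (x.2 - y.2) ^ 2 = 0 := by nlinarith [sq_nonneg (x.1.re - y.1.re), sq_nonneg (x.1.im - y.1.im), sq_nonneg (x.2 - y.2)]
    exact P_ext (sub_eq_zero.mp (by simpa using a1)) (sub_eq_zero.mp (by simpa using a2))
      (sub_eq_zero.mp (by simpa using a3))
  set ch := Real.sqrt ((1 + t) / 2) with hch
  set sh := Real.sqrt ((1 - t) / 2) with hsh
  have hch2 : ch ^ 2 = (1 + t) / 2 := Real.sq_sqrt (by linarith)
  have hsh2 : sh ^ 2 = (1 - t) / 2 := Real.sq_sqrt (by linarith)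
  have hchp : 0 < ch := Real.sqrt_pos.mpr (by linarith)
  have hshp : 0 < sh := Real.sqrt_pos.mpr (by linarith)
  have hle : sh ≤ ch := Real.sqrt_le_sqrt (by linarith)
  set m : P := (2 * ch)⁻¹ • (x + y) with hm
  set u : P := (2 * sh)⁻¹ • (x - y) with hu
  have hpx : px (m, u, ch, sh) = x := by
    simp only [px, hm, hu, smul_smul]
    have e1 : ch * (2 * ch)⁻¹ = 1 / 2 := by field_simp
    have e2 : sh * (2 * sh)⁻¹ = 1 / 2 := by field_simp
    rw [e1, e2, ← smul_add]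
    have : x + y + (x - y) = (2 : ℝ) • x := by rw [two_smul]; abel
    rw [this, smul_smul]; norm_num
  have hpy : py (m, u, ch, sh) = y := by
    simp only [py, hm, hu, smul_smul]
    have e1 : ch * (2 * ch)⁻¹ = 1 / 2 := by field_simp
    have e2 : sh * (2 * sh)⁻¹ = 1 / 2 := by field_simp
    rw [e1, e2, ← smul_sub]
    have : x + y - (x - y) = (2 : ℝ) • y := by rw [two_smul]; abel
    rw [this, smul_smul]; norm_num
  have hx' := hx
  have hy' := hy
  have ht' := ht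
  simp only [dot] at hx' hy' ht'
  refine ⟨(m, u, ch, sh), ⟨?_, ?_, ?_, ?_, ?_, ?_⟩, hshp.ne', hpx, hpy⟩
  · have : normSq m.1 + m.2 ^ 2 = ((2 * ch)⁻¹) ^ 2 * (2 + 2 * t) := by
      rw [normSq_apply, hm]
      simp
      rw [ht']
      linear_combination ((2 * ch)⁻¹) ^ 2 * (hx' + hy')
    simp only
    rw [this]
    field_simp
    rw [hch2]; ring
  · have : normSq u.1 + u.2 ^ 2 = ((2 * sh)⁻¹) ^ 2 * (2 - 2 * t) := by
      rw [normSq_apply, hu]
      simp
      rw [ht']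
      linear_combination ((2 * sh)⁻¹) ^ 2 * (hx' + hy')
    simp only
    rw [this]
    field_simp
    rw [hsh2]; ring
  · rw [hm, hu]
    simp
    linear_combination ((2 * ch)⁻¹ * (2 * sh)⁻¹) * (hx' - hy')
  · simp only
    rw [hch2, hsh2]; ring
  · exact hshp.le
  · exact hle

end

end Pool.Agent.TH638.Skew
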