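import Pool.Agent.TH638.Skew.Modes

/-!
Pairs of points on great circles of `S² ⊂ ℂ × ℝ` and normalized relations between the affine
tangent planes at the two points.
-/

namespace Pool.Agent.TH638.Skew

open Complex Filter Topology Set
open scoped ComplexConjugate ContDiff

noncomputable section

/-- `ℝ³ = ℂ × ℝ`. -/
abbrev P := ℂ × ℝ

/-- Parameters `(m, u, cos h, sin h)`. -/
abbrev K := P × P × ℝ × ℝ

/-- The point `x = cos h m + sin h u`. -/
def px (k : K) : P := k.2.2.1 • k.1 + k.2.2.2 • k.2.1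
/-- The point `y = cos h m - sin h u`. -/
def py (k : K) : P := k.2.2.1 • k.1 - k.2.2.2 • k.2.1
/-- The tangent vector of the circle at `x`. -/
def dx (k : K) : P := k.2.2.1 • k.2.1 - k.2.2.2 • k.1
/-- The tangent vector of the circle at `y`. -/
def dy (k : K) : P := k.2.2.1 • k.2.1 + k.2.2.2 • k.1
/-- The normal `m × u` of the circle. -/
def nb (k : K) : P :=
  (I * (k.1.2 * k.2.1.1 - k.2.1.2 * k.1.1), (conj k.1.1 * k.2.1.1).im)

lemma px_cont : Continuous px := by unfold px; fun_prop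
lemma py_cont : Continuous py := by unfold py; fun_prop
lemma dx_cont : Continuous dx := by unfold dx; fun_prop
lemma dy_cont : Continuous dy := by unfold dy; fun_prop
lemma nb_cont : Continuous nb := by
  unfold nb
  have h : Continuous (fun k : K => conj k.1.1) := Complex.continuous_conj.comp (by fun_prop)
  exact Continuous.prodMk (by fun_prop) (Complex.continuous_im.comp (h.mul (by fun_prop)))

/-- A function all whose differences between the two points are divisible by `sin h`. -/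
structure Good (f : P → ℂ) : Prop where
  smooth : ContDiff ℝ ∞ f
  ex : ∃ M S T : K → ℂ, Continuous M ∧ Continuous S ∧ Continuous T ∧ ∀ k : K,
    f (px k) - f (py k) = k.2.2.2 * M k ∧
    fderiv ℝ f (px k) (dx k) - fderiv ℝ f (py k) (dy k) = k.2.2.2 * S k ∧
    fderiv ℝ f (px k) (nb k) - fderiv ℝ f (py k) (nb k) = k.2.2.2 * T k

lemma Good.cont_eval {f : P → ℂ} (h : Good f) {X : Type*} [TopologicalSpace X] {g : X → P}
    (hg : Continuous g) : Continuous (fun x => f (g x)) :=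
  h.smooth.continuous.comp hg

lemma Good.cont_deriv {f : P → ℂ} (h : Good f) {X : Type*} [TopologicalSpace X] {g v : X → P}
    (hg : Continuous g) (hv : Continuous v) : Continuous (fun x => fderiv ℝ f (g x) (v x)) :=
  ((h.smooth.continuous_fderiv (by simp)).comp hg).clm_apply hv

lemma Good.diff {f : P → ℂ} (h : Good f) (p : P) : DifferentiableAt ℝ f p :=
  (h.smooth.differentiable (by simp)) p

lemma Good.mul {f g : P → ℂ} (hf : Good f) (hg : Good g) : Good (fun p => f p * g p) := by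
  obtain ⟨M, S, T, hM, hS, hT, h⟩ := hf.ex
  obtain ⟨M', S', T', hM', hS', hT', h'⟩ := hg.ex
  have hd : ∀ p v, fderiv ℝ (fun p => f p * g p) p v = f p * fderiv ℝ g p v +
      g p * fderiv ℝ f p v := by
    intro p v
    rw [fderiv_fun_mul (hf.diff p) (hg.diff p)]
    simp
  have c1 := hf.cont_eval px_cont
  have c2 := hf.cont_eval py_cont
  have c3 := hg.cont_eval px_cont
  have c4 := hg.cont_eval py_cont
  have c5 := hf.cont_deriv py_cont dy_cont
  have c6 := hg.cont_deriv px_cont dx_cont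
  have c7 := hf.cont_deriv py_cont nb_cont
  have c8 := hg.cont_deriv px_cont nb_cont
  refine ⟨hf.smooth.mul hg.smooth, fun k => M k * g (px k) + f (py k) * M' k,
    fun k => S k * g (px k) + fderiv ℝ f (py k) (dy k) * M' k + M k * fderiv ℝ g (px k) (dx k) +
      f (py k) * S' k,
    fun k => T k * g (px k) + fderiv ℝ f (py k) (nb k) * M' k + M k * fderiv ℝ g (px k) (nb k) +
      f (py k) * T' k, ?_, ?_, ?_, ?_⟩
  · exact (hM.mul c3).add (c2.mul hM')
  · exact (((hS.mul c3).add (c5.mul hM')).add (hM.mul c6)).add (c2.mul hS')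
  · exact (((hT.mul c3).add (c7.mul hM')).add (hM.mul c8)).add (c2.mul hT')
  · intro k
    obtain ⟨a1, a2, a3⟩ := h k
    obtain ⟨b1, b2, b3⟩ := h' k
    refine ⟨?_, ?_, ?_⟩
    · linear_combination g (px k) * a1 + f (py k) * b1
    · rw [hd, hd]
      linear_combination g (px k) * a2 + fderiv ℝ f (py k) (dy k) * b1 +
        fderiv ℝ g (px k) (dx k) * a1 + f (py k) * b2
    · rw [hd, hd]
      linear_combination g (px k) * a3 + fderiv ℝ f (py k) (nb k) * b1 +
        fderiv ℝ g (px k) (nb k) * a1 + f (py k) * b3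

lemma Good.conj {f : P → ℂ} (hf : Good f) : Good (fun p => conj (f p)) := by
  obtain ⟨M, S, T, hM, hS, hT, h⟩ := hf.ex
  have hd : ∀ p v, fderiv ℝ (fun p => conj (f p)) p v = conj (fderiv ℝ f p v) := by
    intro p v
    have h1 : HasFDerivAt (fun p => conj (f p)) ((conjCLE : ℂ →L[ℝ] ℂ).comp (fderiv ℝ f p)) p :=
      (conjCLE : ℂ →L[ℝ] ℂ).hasFDerivAt.comp p (hf.diff p).hasFDerivAt
    rw [h1.fderiv]
    rfl
  refine ⟨(conjCLE : ℂ →L[ℝ] ℂ).contDiff.comp hf.smooth, fun k => conj (M k),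
    fun k => conj (S k), fun k => conj (T k), Complex.continuous_conj.comp hM,
    Complex.continuous_conj.comp hS, Complex.continuous_conj.comp hT, ?_⟩
  intro k
  obtain ⟨a1, a2, a3⟩ := h k
  refine ⟨?_, ?_, ?_⟩
  · rw [← map_sub, a1, map_mul, conj_ofReal]
  · rw [hd, hd, ← map_sub, a2, map_mul, conj_ofReal]
  · rw [hd, hd, ← map_sub, a3, map_mul, conj_ofReal]

lemma good_fst : Good (fun p : P => p.1) := by
  have hd : ∀ p v, fderiv ℝ (fun p : P => p.1) p v = v.1 := by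
    intro p v
    rw [hasFDerivAt_fst.fderiv]; rfl
  refine ⟨contDiff_fst, fun k => 2 * k.2.1.1, fun k => -2 * k.1.1, fun k => 0, by fun_prop,
    by fun_prop, by fun_prop, ?_⟩
  intro k
  refine ⟨?_, ?_, ?_⟩
  · simp only [px, py, Prod.fst_add, Prod.fst_sub, Prod.smul_fst, Complex.real_smul]; ring
  · rw [hd, hd]
    simp only [dx, dy, Prod.fst_add, Prod.fst_sub, Prod.smul_fst, Complex.real_smul]; ring
  · rw [hd, hd]; simp

lemma good_snd : Good (fun p : P => (p.2 : ℂ)) := by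
  have hd : ∀ p v, fderiv ℝ (fun p : P => (p.2 : ℂ)) p v = v.2 := by
    intro p v
    have h1 : HasFDerivAt (fun p : P => (p.2 : ℂ))
        (ofRealCLM.comp (ContinuousLinearMap.snd ℝ ℂ ℝ)) p :=
      ofRealCLM.hasFDerivAt.comp p hasFDerivAt_snd
    rw [h1.fderiv]; rfl
  refine ⟨ofRealCLM.contDiff.comp contDiff_snd, fun k => 2 * k.2.1.2, fun k => -2 * k.1.2,
    fun k => 0, by fun_prop, by fun_prop, by fun_prop, ?_⟩
  intro k
  refine ⟨?_, ?_, ?_⟩
  · simp only [px, py, Prod.snd_add, Prod.snd_sub, Prod.smul_snd, smul_eq_mul]; push_cast; ring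
  · rw [hd, hd]
    simp only [dx, dy, Prod.snd_add, Prod.snd_sub, Prod.smul_snd, smul_eq_mul]; push_cast; ring
  · rw [hd, hd]; simp

lemma good_one : Good (fun _ : P => (1 : ℂ)) := by
  refine ⟨contDiff_const, fun k => 0, fun k => 0, fun k => 0, by fun_prop, by fun_prop,
    by fun_prop, ?_⟩
  intro k
  simp

lemma Good.pow {f : P → ℂ} (hf : Good f) (n : ℕ) : Good (fun p => f p ^ n) := by
  induction n with
  | zero => simpa using good_one
  | succ n ih =>
    have : (fun p => f p ^ (n + 1)) = fun p => f p ^ n * f p := by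
      funext p; rw [pow_succ]
    rw [this]
    exact ih.mul hf

/-! ### Relations -/

/-- The admissible parameters: `m, u` orthonormal, `(cos h, sin h)` with `0 ≤ h ≤ π/4`. -/
def KK : Set K :=
  {k | normSq k.1.1 + k.1.2 ^ 2 = 1 ∧ normSq k.2.1.1 + k.2.1.2 ^ 2 = 1 ∧
    (conj k.1.1 * k.2.1.1).re + k.1.2 * k.2.1.2 = 0 ∧ k.2.2.1 ^ 2 + k.2.2.2 ^ 2 = 1 ∧
    0 ≤ k.2.2.2 ∧ k.2.2.2 ≤ k.2.2.1}

/-- `cos 2h`. -/
def c2 (k : K) : ℝ := k.2.2.1 ^ 2 - k.2.2.2 ^ 2

/-- `D` is the normalized defect of `f`. -/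
def HasDefect (f : P → ℂ) (D : K → ℂ) : Prop :=
  Continuous D ∧ ∀ k ∈ KK, c2 k * (f (px k) - f (py k)) -
    k.2.2.1 * k.2.2.2 * (fderiv ℝ f (px k) (dx k) + fderiv ℝ f (py k) (dy k)) =
      (2 * k.2.2.1 * k.2.2.2) ^ 3 * D k

/-- The normalized coefficients `(λ, μ, s, τ₁, τ₂)` of a relation. -/
def co (k : K) (α pu qu pb qb : ℝ) : ℝ × ℝ × ℝ × ℝ × ℝ :=
  (-4 * (pu - qu) * k.2.2.2 ^ 2 * k.2.2.1 ^ 2, α * k.2.2.2 + (pu - qu) / 2 * c2 k / k.2.2.1,
    (pu + qu) / 2 * k.2.2.2, (pb - qb) / 2, (pb + qb) / 2 * k.2.2.2)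

/-- The left side of the relation between the affine tangent planes. -/
def rel (f : P → ℂ) (k : K) (α pu qu pb qb : ℝ) : ℂ :=
  α * (f (px k) - f (py k)) + (fderiv ℝ f (px k) (pu • dx k + pb • nb k) -
    fderiv ℝ f (py k) (qu • dy k + qb • nb k))

/-- `Φ` expresses the relations of `f`, with normalized defect `D`. -/
structure Rep (f : P → ℂ) (D : K → ℂ) (Φ : K × (ℝ × ℝ × ℝ × ℝ × ℝ) → ℂ) : Prop where
  cont : Continuous Φ
  main : ∀ k l, Φ (k, (l, 0, 0, 0, 0)) = l * D k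
  smul : ∀ k (t : ℝ) v, Φ (k, t • v) = t * Φ (k, v)
  rel : ∀ k ∈ KK, k.2.2.2 ≠ 0 → ∀ α pu qu pb qb,
    rel f k α pu qu pb qb = Φ (k, co k α pu qu pb qb)

lemma ch_pos {k : K} (hk : k ∈ KK) : 0 < k.2.2.1 := by
  obtain ⟨-, -, -, h4, h5, h6⟩ := hk
  rcases (h5.trans h6).lt_or_eq with h | h
  · exact h
  · exfalso
    rw [← h] at h4 h6
    have : k.2.2.2 = 0 := le_antisymm h6 h5
    rw [this] at h4
    norm_num at h4

/-- The relation from differences and the defect. -/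
lemma rel_formula {X Y X' Y' Xb Yb M S T D : ℂ} {ch sh c : ℝ} (hsh : sh ≠ 0) (hch : ch ≠ 0)
    (h1 : X - Y = sh * M) (h2 : X' - Y' = sh * S) (h3 : Xb - Yb = sh * T)
    (h4 : c * (X - Y) - ch * sh * (X' + Y') = (2 * ch * sh) ^ 3 * D) (α pu qu pb qb : ℝ) :
    α * (X - Y) + ((pu * X' + pb * Xb) - (qu * Y' + qb * Yb)) =
      ((α * sh + (pu - qu) / 2 * c / ch : ℝ) : ℂ) * M +
        ((-4 * (pu - qu) * sh ^ 2 * ch ^ 2 : ℝ) : ℂ) * D +
        (((pu + qu) / 2 * sh : ℝ) : ℂ) * S + (((pb - qb) / 2 : ℝ) : ℂ) * (Xb + Yb) +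
        (((pb + qb) / 2 * sh : ℝ) : ℂ) * T := by
  have hsh' : (sh : ℂ) ≠ 0 := by exact_mod_cast hsh
  have hch' : (ch : ℂ) ≠ 0 := by exact_mod_cast hch
  have hsum : X' + Y' = c * M / ch - 8 * sh ^ 2 * ch ^ 2 * D := by
    have : (ch * sh : ℂ) * (X' + Y') = (ch * sh) * (c * M / ch - 8 * sh ^ 2 * ch ^ 2 * D) := by
      have e : (ch * sh : ℂ) * (c * M / ch - 8 * sh ^ 2 * ch ^ 2 * D) =
          c * (sh * M) - 8 * sh ^ 3 * ch ^ 3 * D := by field_simp
      rw [e]
      linear_combination c * h1 - h4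
    exact mul_left_cancel₀ (mul_ne_zero hch' hsh') this
  push_cast
  linear_combination (α : ℂ) * h1 + ((pu + qu) / 2 : ℂ) * h2 + ((pb + qb) / 2 : ℂ) * h3 +
    ((pu - qu) / 2 : ℂ) * hsum

lemma Good.rep {f : P → ℂ} {D : K → ℂ} (hf : Good f) (hD : HasDefect f D) :
    ∃ Φ, Rep f D Φ := by
  obtain ⟨M, S, T, hM, hS, hT, h⟩ := hf.ex
  refine ⟨fun q => q.2.2.1 * M q.1 + q.2.1 * D q.1 + q.2.2.2.1 * S q.1 +
    q.2.2.2.2.1 * (fderiv ℝ f (px q.1) (nb q.1) + fderiv ℝ f (py q.1) (nb q.1)) +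
    q.2.2.2.2.2 * T q.1, ?_, ?_, ?_, ?_⟩
  · have c1 := hf.cont_deriv (px_cont.comp continuous_fst)
      (nb_cont.comp (continuous_fst (X := K) (Y := ℝ × ℝ × ℝ × ℝ × ℝ)))
    have c2 := hf.cont_deriv (py_cont.comp continuous_fst)
      (nb_cont.comp (continuous_fst (X := K) (Y := ℝ × ℝ × ℝ × ℝ × ℝ)))
    have c3 := hD.1
    simp only [Function.comp_def] at c1 c2
    fun_prop
  · intro k l
    simp
  · intro k t v
    simp only [Prod.smul_fst, Prod.smul_snd, smul_eq_mul]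
    push_cast
    ring
  · intro k hk hsh α pu qu pb qb
    obtain ⟨a1, a2, a3⟩ := h k
    have := rel_formula hsh (ch_pos hk).ne' a1 a2 a3 (hD.2 k hk) α pu qu pb qb
    simp only [Skew.rel, co, map_add, map_smul, Complex.real_smul]
    exact this

end

end Pool.Agent.TH638.Skew
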