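import Pool.Agent.TH638.Skew.Star

/-!
The defects `cos 2h (φ(x) - φ(y)) - (1/2) sin 2h (φ'(x) + φ'(y))` of the monomials along the circle
`w = A e^{it} + B e^{-it}`, `z = C e^{it} + C' e^{-it}`; `r = e^{ih}`, `r' = e^{-ih}`.
-/

namespace Pool.Agent.TH638.Skew

open Complex

lemma sin_form {r r' : ℂ} : (r ^ 2 - r' ^ 2) / (2 * I) = -(I * (r ^ 2 - r' ^ 2) / 2) := by
  have hI : I ^ 2 = -1 := I_sq
  field_simp
  rw [hI]; ring

lemma sin_cube {r r' : ℂ} : (-(I * (r ^ 2 - r' ^ 2) / 2)) ^ 3 = I * (r ^ 2 - r' ^ 2) ^ 3 / 8 := by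
  have hI : I ^ 2 = -1 := I_sq
  have : (-(I * (r ^ 2 - r' ^ 2) / 2)) ^ 3 = -(I * I ^ 2 * (r ^ 2 - r' ^ 2) ^ 3 / 8) := by ring
  rw [this, hI]; ring

lemma mode_w6 (A B r r' : ℂ) (h : r * r' = 1) :
    (r ^ 2 + r' ^ 2) / 2 * ((A * r + B * r') ^ 6 - (A * r' + B * r) ^ 6) -
      (r ^ 2 - r' ^ 2) / (2 * I) / 2 * (6 * (A * r + B * r') ^ 5 * (I * (A * r - B * r')) +
        6 * (A * r' + B * r) ^ 5 * (I * (A * r' - B * r))) =
    ((r ^ 2 - r' ^ 2) / (2 * I)) ^ 3 * (2 * I *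
      (8 * ((r ^ 2 + r' ^ 2) / 2) * (A ^ 6 - B ^ 6) + 12 * (A * B) * (A ^ 4 - B ^ 4))) := by
  have hr : r ≠ 0 := left_ne_zero_of_mul_eq_one h
  have h' : r' = r⁻¹ := eq_inv_of_mul_eq_one_right h
  have hI : I ^ 2 = -1 := I_sq
  rw [sin_form, sin_cube]
  subst h'
  field_simp
  ring_nf
  simp only [hI]
  ring

lemma mode_w4 (A B r r' : ℂ) (h : r * r' = 1) :
    (r ^ 2 + r' ^ 2) / 2 * ((A * r + B * r') ^ 4 - (A * r' + B * r) ^ 4) -
      (r ^ 2 - r' ^ 2) / (2 * I) / 2 * (4 * (A * r + B * r') ^ 3 * (I * (A * r - B * r')) +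
        4 * (A * r' + B * r) ^ 3 * (I * (A * r' - B * r))) =
    ((r ^ 2 - r' ^ 2) / (2 * I)) ^ 3 * (4 * I * (A ^ 4 - B ^ 4)) := by
  have hr : r ≠ 0 := left_ne_zero_of_mul_eq_one h
  have h' : r' = r⁻¹ := eq_inv_of_mul_eq_one_right h
  have hI : I ^ 2 = -1 := I_sq
  rw [sin_form, sin_cube]
  subst h'
  field_simp
  ring_nf
  simp only [hI]
  ring

lemma mode_w8 (A B r r' : ℂ) (h : r * r' = 1) :
    (r ^ 2 + r' ^ 2) / 2 * ((A * r + B * r') ^ 8 - (A * r' + B * r) ^ 8) -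
      (r ^ 2 - r' ^ 2) / (2 * I) / 2 * (8 * (A * r + B * r') ^ 7 * (I * (A * r - B * r')) +
        8 * (A * r' + B * r) ^ 7 * (I * (A * r' - B * r))) =
    ((r ^ 2 - r' ^ 2) / (2 * I)) ^ 3 * (2 * I *
      ((24 * ((r ^ 2 + r' ^ 2) / 2) ^ 2 - 4) * (A ^ 8 - B ^ 8) +
        64 * ((r ^ 2 + r' ^ 2) / 2) * (A * B) * (A ^ 6 - B ^ 6) +
        56 * (A * B) ^ 2 * (A ^ 4 - B ^ 4))) := by
  have hr : r ≠ 0 := left_ne_zero_of_mul_eq_one h
  have h' : r' = r⁻¹ := eq_inv_of_mul_eq_one_right h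
  have hI : I ^ 2 = -1 := I_sq
  rw [sin_form, sin_cube]
  subst h'
  field_simp
  ring_nf
  simp only [hI]
  ring

lemma mode_w10 (A B r r' : ℂ) (h : r * r' = 1) :
    (r ^ 2 + r' ^ 2) / 2 * ((A * r + B * r') ^ 10 - (A * r' + B * r) ^ 10) -
      (r ^ 2 - r' ^ 2) / (2 * I) / 2 * (10 * (A * r + B * r') ^ 9 * (I * (A * r - B * r')) +
        10 * (A * r' + B * r) ^ 9 * (I * (A * r' - B * r))) =
    ((r ^ 2 - r' ^ 2) / (2 * I)) ^ 3 * (2 * I *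
      ((64 * ((r ^ 2 + r' ^ 2) / 2) ^ 3 - 24 * ((r ^ 2 + r' ^ 2) / 2)) * (A ^ 10 - B ^ 10) +
        10 * (24 * ((r ^ 2 + r' ^ 2) / 2) ^ 2 - 4) * (A * B) * (A ^ 8 - B ^ 8) +
        360 * ((r ^ 2 + r' ^ 2) / 2) * (A * B) ^ 2 * (A ^ 6 - B ^ 6) +
        240 * (A * B) ^ 3 * (A ^ 4 - B ^ 4))) := by
  have hr : r ≠ 0 := left_ne_zero_of_mul_eq_one h
  have h' : r' = r⁻¹ := eq_inv_of_mul_eq_one_right h
  have hI : I ^ 2 = -1 := I_sq
  rw [sin_form, sin_cube]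
  subst h'
  field_simp
  ring_nf
  simp only [hI]
  ring

lemma mode_w3z (A B C D r r' : ℂ) (h : r * r' = 1) :
    (r ^ 2 + r' ^ 2) / 2 * ((A * r + B * r') ^ 3 * (C * r + D * r') -
        (A * r' + B * r) ^ 3 * (C * r' + D * r)) -
      (r ^ 2 - r' ^ 2) / (2 * I) / 2 *
        ((3 * (A * r + B * r') ^ 2 * (I * (A * r - B * r')) * (C * r + D * r') +
          (A * r + B * r') ^ 3 * (I * (C * r - D * r'))) +
         (3 * (A * r' + B * r) ^ 2 * (I * (A * r' - B * r)) * (C * r' + D * r) +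
          (A * r' + B * r) ^ 3 * (I * (C * r' - D * r)))) =
    ((r ^ 2 - r' ^ 2) / (2 * I)) ^ 3 * (4 * I * (A ^ 3 * C - D * B ^ 3)) := by
  have hr : r ≠ 0 := left_ne_zero_of_mul_eq_one h
  have h' : r' = r⁻¹ := eq_inv_of_mul_eq_one_right h
  have hI : I ^ 2 = -1 := I_sq
  rw [sin_form, sin_cube]
  subst h'
  field_simp
  ring_nf
  simp only [hI]
  ring

lemma mode_quad (A B C D r r' : ℂ) (h : r * r' = 1) :
    (r ^ 2 + r' ^ 2) / 2 * ((A * r + B * r') * (C * r + D * r') -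
        (A * r' + B * r) * (C * r' + D * r)) -
      (r ^ 2 - r' ^ 2) / (2 * I) / 2 *
        (((I * (A * r - B * r')) * (C * r + D * r') +
          (A * r + B * r') * (I * (C * r - D * r'))) +
         ((I * (A * r' - B * r)) * (C * r' + D * r) +
          (A * r' + B * r) * (I * (C * r' - D * r)))) = 0 := by
  have hr : r ≠ 0 := left_ne_zero_of_mul_eq_one h
  have h' : r' = r⁻¹ := eq_inv_of_mul_eq_one_right h
  have hI : I ^ 2 = -1 := I_sq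
  rw [sin_form]
  subst h'
  field_simp
  ring_nf
  simp only [hI]
  ring

end Pool.Agent.TH638.Skew
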