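import Pool.Agent.TH638.Skew.Circle

/-!
The quadratic functions `w z`, `w²`, `z²`: their relations are exact.
-/

namespace Pool.Agent.TH638.Skew

open Complex Filter Topology Set
open scoped ComplexConjugate ContDiff

noncomputable section

/-- Coefficients of a normalized relation. -/
abbrev Co := ℝ × ℝ × ℝ × ℝ × ℝ

/-- The relation of `w z`. -/
def Qwz (q : K × Co) : ℂ :=
  q.2.2.1 * (2 * q.1.2.2.1 * (q.1.1.1 * q.1.2.1.2 + q.1.2.1.1 * q.1.1.2)) +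
    q.2.2.2.1 * (-4 * q.1.2.2.1 * (q.1.1.1 * q.1.1.2 - q.1.2.1.1 * q.1.2.1.2)) +
    q.2.2.2.2.1 * (2 * q.1.2.2.1 * (q.1.1.1 * (nb q.1).2 + q.1.1.2 * (nb q.1).1)) +
    q.2.2.2.2.2 * (2 * (q.1.2.1.1 * (nb q.1).2 + q.1.2.1.2 * (nb q.1).1))

/-- The relation of `w²`. -/
def Qww (q : K × Co) : ℂ :=
  q.2.2.1 * (2 * q.1.2.2.1 * (2 * (q.1.1.1 * q.1.2.1.1))) +
    q.2.2.2.1 * (-4 * q.1.2.2.1 * (q.1.1.1 * q.1.1.1 - q.1.2.1.1 * q.1.2.1.1)) +
    q.2.2.2.2.1 * (2 * q.1.2.2.1 * (2 * (q.1.1.1 * (nb q.1).1))) +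
    q.2.2.2.2.2 * (2 * (2 * (q.1.2.1.1 * (nb q.1).1)))

/-- The relation of `z²`. -/
def Qzz (q : K × Co) : ℂ :=
  q.2.2.1 * (2 * q.1.2.2.1 * (2 * (q.1.1.2 * q.1.2.1.2))) +
    q.2.2.2.1 * (-4 * q.1.2.2.1 * (q.1.1.2 * q.1.1.2 - q.1.2.1.2 * q.1.2.1.2)) +
    q.2.2.2.2.1 * (2 * q.1.2.2.1 * (2 * (q.1.1.2 * (nb q.1).2))) +
    q.2.2.2.2.2 * (2 * (2 * (q.1.2.1.2 * (nb q.1).2)))

lemma rep_wz : Rep (fun p : P => p.1 * (p.2 : ℂ)) (fun _ => 0) Qwz := by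
  refine ⟨?_, ?_, ?_, ?_⟩
  · have h := nb_cont.comp (continuous_fst (X := K) (Y := Co))
    simp only [Function.comp_def] at h
    unfold Qwz; fun_prop
  · intro k l; simp [Qwz]
  · intro k t v
    simp only [Qwz, Prod.smul_fst, Prod.smul_snd, smul_eq_mul]
    push_cast
    ring
  · intro k hk hsh α pu qu pb qb
    have hd : ∀ p v, fderiv ℝ (fun p : P => p.1 * (p.2 : ℂ)) p v = p.1 * v.2 + p.2 * v.1 := by
      intro p v
      rw [fderiv_mul' good_fst good_snd, fderiv_w, fderiv_z]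
    have := rel_formula (X := (px k).1 * ((px k).2 : ℂ)) (Y := (py k).1 * ((py k).2 : ℂ))
      (X' := (px k).1 * (dx k).2 + (px k).2 * (dx k).1)
      (Y' := (py k).1 * (dy k).2 + (py k).2 * (dy k).1)
      (Xb := (px k).1 * (nb k).2 + (px k).2 * (nb k).1)
      (Yb := (py k).1 * (nb k).2 + (py k).2 * (nb k).1)
      (M := 2 * k.2.2.1 * (k.1.1 * k.2.1.2 + k.2.1.1 * k.1.2))
      (S := -4 * k.2.2.1 * (k.1.1 * k.1.2 - k.2.1.1 * k.2.1.2))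
      (T := 2 * (k.2.1.1 * (nb k).2 + k.2.1.2 * (nb k).1)) (D := 0)
      (c := c2 k) hsh (ch_pos hk).ne'
      (by simp [px, py]; ring) (by simp [px, py, dx, dy]; ring) (by simp [px, py]; ring)
      (by simp [px, py, dx, dy, c2]; ring) α pu qu pb qb
    simp only [Skew.rel, map_add, map_smul, Complex.real_smul]
    simp only [hd]
    rw [this]
    simp only [Qwz, co, px, py, Prod.fst_add, Prod.fst_sub, Prod.snd_add, Prod.snd_sub,
      Prod.smul_fst, Prod.smul_snd, Complex.real_smul, smul_eq_mul]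
    push_cast
    ring

lemma rep_ww : Rep (fun p : P => p.1 * p.1) (fun _ => 0) Qww := by
  refine ⟨?_, ?_, ?_, ?_⟩
  · have h := nb_cont.comp (continuous_fst (X := K) (Y := Co))
    simp only [Function.comp_def] at h
    unfold Qww; fun_prop
  · intro k l; simp [Qww]
  · intro k t v
    simp only [Qww, Prod.smul_fst, Prod.smul_snd, smul_eq_mul]
    push_cast
    ring
  · intro k hk hsh α pu qu pb qb
    have hd : ∀ p v, fderiv ℝ (fun p : P => p.1 * p.1) p v = p.1 * v.1 + p.1 * v.1 := by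
      intro p v
      rw [fderiv_mul' good_fst good_fst, fderiv_w]
    have := rel_formula (X := (px k).1 * (px k).1) (Y := (py k).1 * (py k).1)
      (X' := (px k).1 * (dx k).1 + (px k).1 * (dx k).1)
      (Y' := (py k).1 * (dy k).1 + (py k).1 * (dy k).1)
      (Xb := (px k).1 * (nb k).1 + (px k).1 * (nb k).1)
      (Yb := (py k).1 * (nb k).1 + (py k).1 * (nb k).1)
      (M := 2 * k.2.2.1 * (2 * (k.1.1 * k.2.1.1)))
      (S := -4 * k.2.2.1 * (k.1.1 * k.1.1 - k.2.1.1 * k.2.1.1))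
      (T := 2 * (2 * (k.2.1.1 * (nb k).1))) (D := 0)
      (c := c2 k) hsh (ch_pos hk).ne'
      (by simp [px, py]; ring) (by simp [px, py, dx, dy]; ring) (by simp [px, py]; ring)
      (by simp [px, py, dx, dy, c2]; ring) α pu qu pb qb
    simp only [Skew.rel, map_add, map_smul, Complex.real_smul]
    simp only [hd]
    rw [this]
    simp only [Qww, co, px, py, Prod.fst_add, Prod.fst_sub, Prod.snd_add, Prod.snd_sub,
      Prod.smul_fst, Prod.smul_snd, Complex.real_smul, smul_eq_mul]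
    push_cast
    ring

lemma rep_zz : Rep (fun p : P => (p.2 : ℂ) * (p.2 : ℂ)) (fun _ => 0) Qzz := by
  refine ⟨?_, ?_, ?_, ?_⟩
  · have h := nb_cont.comp (continuous_fst (X := K) (Y := Co))
    simp only [Function.comp_def] at h
    unfold Qzz; fun_prop
  · intro k l; simp [Qzz]
  · intro k t v
    simp only [Qzz, Prod.smul_fst, Prod.smul_snd, smul_eq_mul]
    push_cast
    ring
  · intro k hk hsh α pu qu pb qb
    have hd : ∀ p v, fderiv ℝ (fun p : P => (p.2 : ℂ) * (p.2 : ℂ)) p v = p.2 * v.2 + p.2 * v.2 := by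
      intro p v
      rw [fderiv_mul' good_snd good_snd, fderiv_z]
    have := rel_formula (X := ((px k).2 : ℂ) * (px k).2) (Y := ((py k).2 : ℂ) * (py k).2)
      (X' := (px k).2 * (dx k).2 + (px k).2 * (dx k).2)
      (Y' := (py k).2 * (dy k).2 + (py k).2 * (dy k).2)
      (Xb := (px k).2 * (nb k).2 + (px k).2 * (nb k).2)
      (Yb := (py k).2 * (nb k).2 + (py k).2 * (nb k).2)
      (M := 2 * k.2.2.1 * (2 * (k.1.2 * k.2.1.2)))
      (S := -4 * k.2.2.1 * (k.1.2 * k.1.2 - k.2.1.2 * k.2.1.2))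
      (T := 2 * (2 * (k.2.1.2 * (nb k).2))) (D := 0)
      (c := c2 k) hsh (ch_pos hk).ne'
      (by simp [px, py]; ring) (by simp [px, py, dx, dy]; ring) (by simp [px, py]; ring)
      (by simp [px, py, dx, dy, c2]; ring) α pu qu pb qb
    simp only [Skew.rel, map_add, map_smul, Complex.real_smul]
    simp only [hd]
    rw [this]
    simp only [Qzz, co, px, py, Prod.fst_add, Prod.fst_sub, Prod.snd_add, Prod.snd_sub,
      Prod.smul_fst, Prod.smul_snd, Complex.real_smul, smul_eq_mul]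
    push_cast
    ring

/-! ### The quadratic part determines four of the five coefficients -/

/-- The orthonormality of `m, u` in real coordinates. -/
lemma KK_real {k : K} (hk : k ∈ KK) :
    k.1.1.re ^ 2 + k.1.1.im ^ 2 + k.1.2 ^ 2 = 1 ∧
    k.2.1.1.re ^ 2 + k.2.1.1.im ^ 2 + k.2.1.2 ^ 2 = 1 ∧
    k.1.1.re * k.2.1.1.re + k.1.1.im * k.2.1.1.im + k.1.2 * k.2.1.2 = 0 := by
  obtain ⟨h1, h2, h3, -, -, -⟩ := hk
  rw [normSq_apply] at h1 h2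
  simp at h3
  refine ⟨by linarith, by linarith, by linarith⟩

/-- A real symmetric matrix built from an orthonormal frame `m, u, b = m × u`, whose trace-free
components vanish, has zero coefficients. -/
lemma frame_zero {m1 m2 m3 u1 u2 u3 a s t v : ℝ} (hm : m1 ^ 2 + m2 ^ 2 + m3 ^ 2 = 1)
    (hu : u1 ^ 2 + u2 ^ 2 + u3 ^ 2 = 1) (hmu : m1 * u1 + m2 * u2 + m3 * u3 = 0)
    (Q : Fin 3 → Fin 3 → ℝ)
    (hQ : ∀ i j, Q i j = a * (![m1, m2, m3] i * ![u1, u2, u3] j + ![u1, u2, u3] i * ![m1, m2, m3] j) +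
      s * (![m1, m2, m3] i * ![m1, m2, m3] j - ![u1, u2, u3] i * ![u1, u2, u3] j) +
      t * (![m1, m2, m3] i * ![m2 * u3 - m3 * u2, m3 * u1 - m1 * u3, m1 * u2 - m2 * u1] j +
        ![m1, m2, m3] j * ![m2 * u3 - m3 * u2, m3 * u1 - m1 * u3, m1 * u2 - m2 * u1] i) +
      v * (![u1, u2, u3] i * ![m2 * u3 - m3 * u2, m3 * u1 - m1 * u3, m1 * u2 - m2 * u1] j +
        ![u1, u2, u3] j * ![m2 * u3 - m3 * u2, m3 * u1 - m1 * u3, m1 * u2 - m2 * u1] i))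
    (h02 : Q 0 2 = 0) (h12 : Q 1 2 = 0) (h01 : Q 0 1 = 0) (h0011 : Q 0 0 = Q 1 1)
    (h22 : Q 2 2 = 0) : a = 0 ∧ s = 0 ∧ t = 0 ∧ v = 0 := by
  have t00 := hQ 0 0
  have t11 := hQ 1 1
  have t22 := hQ 2 2
  have t01 := hQ 0 1
  have t02 := hQ 0 2
  have t12 := hQ 1 2
  simp at t00 t11 t22 t01 t02 t12
  have htr : Q 0 0 + Q 1 1 + Q 2 2 = 0 := by
    rw [t00, t11, t22]
    linear_combination 2 * a * hmu + s * (hm - hu)
  have h11 : Q 1 1 = 0 := by linarith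
  have h00 : Q 0 0 = 0 := by linarith
  rw [h00] at t00
  rw [h11] at t11
  rw [h22] at t22
  rw [h01] at t01
  rw [h02] at t02
  rw [h12] at t12
  set b1 := m2 * u3 - m3 * u2 with hb1
  set b2 := m3 * u1 - m1 * u3 with hb2
  set b3 := m1 * u2 - m2 * u1 with hb3
  have hbm : b1 * m1 + b2 * m2 + b3 * m3 = 0 := by rw [hb1, hb2, hb3]; ring
  have hbu : b1 * u1 + b2 * u2 + b3 * u3 = 0 := by rw [hb1, hb2, hb3]; ring
  have hbb : b1 ^ 2 + b2 ^ 2 + b3 ^ 2 = 1 := by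
    have : b1 ^ 2 + b2 ^ 2 + b3 ^ 2 = (m1 ^ 2 + m2 ^ 2 + m3 ^ 2) * (u1 ^ 2 + u2 ^ 2 + u3 ^ 2) -
        (m1 * u1 + m2 * u2 + m3 * u3) ^ 2 := by rw [hb1, hb2, hb3]; ring
    rw [this, hm, hu, hmu]; norm_num
  clear_value b1 b2 b3
  have ev : ∀ x1 x2 x3 y1 y2 y3 : ℝ,
      a * ((m1 * x1 + m2 * x2 + m3 * x3) * (u1 * y1 + u2 * y2 + u3 * y3) +
        (u1 * x1 + u2 * x2 + u3 * x3) * (m1 * y1 + m2 * y2 + m3 * y3)) +
      s * ((m1 * x1 + m2 * x2 + m3 * x3) * (m1 * y1 + m2 * y2 + m3 * y3) -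
        (u1 * x1 + u2 * x2 + u3 * x3) * (u1 * y1 + u2 * y2 + u3 * y3)) +
      t * ((m1 * x1 + m2 * x2 + m3 * x3) * (b1 * y1 + b2 * y2 + b3 * y3) +
        (b1 * x1 + b2 * x2 + b3 * x3) * (m1 * y1 + m2 * y2 + m3 * y3)) +
      v * ((u1 * x1 + u2 * x2 + u3 * x3) * (b1 * y1 + b2 * y2 + b3 * y3) +
        (b1 * x1 + b2 * x2 + b3 * x3) * (u1 * y1 + u2 * y2 + u3 * y3)) = 0 := by
    intro x1 x2 x3 y1 y2 y3
    linear_combination (-(x1 * y1)) * t00 - (x2 * y2) * t11 - (x3 * y3) * t22 -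
      (x1 * y2 + x2 * y1) * t01 - (x1 * y3 + x3 * y1) * t02 - (x2 * y3 + x3 * y2) * t12
  have mm : m1 * m1 + m2 * m2 + m3 * m3 = 1 := by linarith
  have uu : u1 * u1 + u2 * u2 + u3 * u3 = 1 := by linarith
  have bb : b1 * b1 + b2 * b2 + b3 * b3 = 1 := by linarith
  have um : u1 * m1 + u2 * m2 + u3 * m3 = 0 := by linarith
  have mb : m1 * b1 + m2 * b2 + m3 * b3 = 0 := by linarith
  have ub : u1 * b1 + u2 * b2 + u3 * b3 = 0 := by linarith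
  have e1 := ev m1 m2 m3 u1 u2 u3
  have e2 := ev m1 m2 m3 m1 m2 m3
  have e3 := ev m1 m2 m3 b1 b2 b3
  have e4 := ev u1 u2 u3 b1 b2 b3
  rw [mm, uu, um, hmu, hbm, hbu] at e1
  rw [mm, um, hbm] at e2
  rw [mm, um, hbm, mb, ub, bb] at e3
  rw [hmu, uu, hbu, mb, ub, bb] at e4
  refine ⟨by linarith, by linarith, by linarith, by linarith⟩

lemma nb_re (k : K) : (nb k).1.re = k.1.1.im * k.2.1.2 - k.1.2 * k.2.1.1.im := by
  simp [nb]; ring

lemma nb_im (k : K) : (nb k).1.im = k.1.2 * k.2.1.1.re - k.1.1.re * k.2.1.2 := by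
  simp [nb]; ring

lemma nb_snd (k : K) : (nb k).2 = k.1.1.re * k.2.1.1.im - k.1.1.im * k.2.1.1.re := by
  simp [nb]; ring

lemma Qwz_re (q : K × Co) : (Qwz q).re =
    (2 * q.1.2.2.1 * q.2.2.1) * (q.1.1.1.re * q.1.2.1.2 + q.1.2.1.1.re * q.1.1.2) +
    (-4 * q.1.2.2.1 * q.2.2.2.1) * (q.1.1.1.re * q.1.1.2 - q.1.2.1.1.re * q.1.2.1.2) +
    (2 * q.1.2.2.1 * q.2.2.2.2.1) * (q.1.1.1.re * (nb q.1).2 + q.1.1.2 * (nb q.1).1.re) +
    (2 * q.2.2.2.2.2) * (q.1.2.1.1.re * (nb q.1).2 + q.1.2.1.2 * (nb q.1).1.re) := by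
  simp [Qwz]; ring

lemma Qwz_im (q : K × Co) : (Qwz q).im =
    (2 * q.1.2.2.1 * q.2.2.1) * (q.1.1.1.im * q.1.2.1.2 + q.1.2.1.1.im * q.1.1.2) +
    (-4 * q.1.2.2.1 * q.2.2.2.1) * (q.1.1.1.im * q.1.1.2 - q.1.2.1.1.im * q.1.2.1.2) +
    (2 * q.1.2.2.1 * q.2.2.2.2.1) * (q.1.1.1.im * (nb q.1).2 + q.1.1.2 * (nb q.1).1.im) +
    (2 * q.2.2.2.2.2) * (q.1.2.1.1.im * (nb q.1).2 + q.1.2.1.2 * (nb q.1).1.im) := by
  simp [Qwz]; ring

lemma Qww_re (q : K × Co) : (Qww q).re =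
    (2 * q.1.2.2.1 * q.2.2.1) * (2 * (q.1.1.1.re * q.1.2.1.1.re - q.1.1.1.im * q.1.2.1.1.im)) +
    (-4 * q.1.2.2.1 * q.2.2.2.1) * (q.1.1.1.re ^ 2 - q.1.1.1.im ^ 2 - q.1.2.1.1.re ^ 2 +
      q.1.2.1.1.im ^ 2) +
    (2 * q.1.2.2.1 * q.2.2.2.2.1) * (2 * (q.1.1.1.re * (nb q.1).1.re -
      q.1.1.1.im * (nb q.1).1.im)) +
    (2 * q.2.2.2.2.2) * (2 * (q.1.2.1.1.re * (nb q.1).1.re - q.1.2.1.1.im * (nb q.1).1.im)) := by
  simp [Qww]; ring

lemma Qww_im (q : K × Co) : (Qww q).im =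
    (2 * q.1.2.2.1 * q.2.2.1) * (2 * (q.1.1.1.re * q.1.2.1.1.im + q.1.1.1.im * q.1.2.1.1.re)) +
    (-4 * q.1.2.2.1 * q.2.2.2.1) * (2 * (q.1.1.1.re * q.1.1.1.im -
      q.1.2.1.1.re * q.1.2.1.1.im)) +
    (2 * q.1.2.2.1 * q.2.2.2.2.1) * (2 * (q.1.1.1.re * (nb q.1).1.im +
      q.1.1.1.im * (nb q.1).1.re)) +
    (2 * q.2.2.2.2.2) * (2 * (q.1.2.1.1.re * (nb q.1).1.im + q.1.2.1.1.im * (nb q.1).1.re)) := by
  simp [Qww]; ring

lemma Qzz_re (q : K × Co) : (Qzz q).re =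
    (2 * q.1.2.2.1 * q.2.2.1) * (2 * (q.1.1.2 * q.1.2.1.2)) +
    (-4 * q.1.2.2.1 * q.2.2.2.1) * (q.1.1.2 ^ 2 - q.1.2.1.2 ^ 2) +
    (2 * q.1.2.2.1 * q.2.2.2.2.1) * (2 * (q.1.1.2 * (nb q.1).2)) +
    (2 * q.2.2.2.2.2) * (2 * (q.1.2.1.2 * (nb q.1).2)) := by
  simp [Qzz]; ring

/-- The functional dual to the normal: it kills the relations of the quadratic functions. -/
def cb (k : K) (F1 F2 : ℂ) (F3 : ℝ) : ℝ :=
  (conj (nb k).1 ^ 2 * F2).re / 2 + 2 * (nb k).2 * (conj (nb k).1 * F1).re +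
    ((nb k).2 ^ 2 - normSq (nb k).1 / 2) * F3

lemma cb_quad {q : K × Co} (hk : q.1 ∈ KK) : cb q.1 (Qwz q) (Qww q) (Qzz q).re = 0 := by
  obtain ⟨hm, hu, hmu⟩ := KK_real hk
  have e : cb q.1 (Qwz q) (Qww q) (Qzz q).re =
      ((nb q.1).1.re ^ 2 - (nb q.1).1.im ^ 2) * (Qww q).re / 2 +
      (nb q.1).1.re * (nb q.1).1.im * (Qww q).im +
      2 * (nb q.1).2 * ((nb q.1).1.re * (Qwz q).re + (nb q.1).1.im * (Qwz q).im) +
      ((nb q.1).2 ^ 2 - ((nb q.1).1.re ^ 2 + (nb q.1).1.im ^ 2) / 2) * (Qzz q).re := by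
    rw [cb, normSq_apply]
    simp [pow_two]
    ring
  rw [e, Qwz_re, Qwz_im, Qww_re, Qww_im, Qzz_re]
  have hbm : (nb q.1).1.re * q.1.1.1.re + (nb q.1).1.im * q.1.1.1.im + (nb q.1).2 * q.1.1.2 = 0 := by
    rw [nb_re, nb_im, nb_snd]; ring
  have hbu : (nb q.1).1.re * q.1.2.1.1.re + (nb q.1).1.im * q.1.2.1.1.im +
      (nb q.1).2 * q.1.2.1.2 = 0 := by
    rw [nb_re, nb_im, nb_snd]; ring
  generalize (nb q.1).1.re = b1 at *
  generalize (nb q.1).1.im = b2 at *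
  generalize (nb q.1).2 = b3 at *
  generalize q.1.1.1.re = m1 at *
  generalize q.1.1.1.im = m2 at *
  generalize q.1.1.2 = m3 at *
  generalize q.1.2.1.1.re = u1 at *
  generalize q.1.2.1.1.im = u2 at *
  generalize q.1.2.1.2 = u3 at *
  generalize 2 * q.1.2.2.1 * q.2.2.1 = a at *
  generalize -4 * q.1.2.2.1 * q.2.2.2.1 = s at *
  generalize 2 * q.1.2.2.1 * q.2.2.2.2.1 = t at *
  generalize 2 * q.2.2.2.2.2 = v at *
  have key : ∀ x1 x2 x3 y1 y2 y3 : ℝ,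
      (b1 ^ 2 - b2 ^ 2) * (x1 * y1 - x2 * y2) + b1 * b2 * (2 * (x1 * y2 + x2 * y1)) +
      2 * b3 * (b1 * (x1 * y3 + x3 * y1) + b2 * (x2 * y3 + x3 * y2)) +
      (b3 ^ 2 - (b1 ^ 2 + b2 ^ 2) / 2) * (2 * (x3 * y3)) =
      2 * (b1 * x1 + b2 * x2 + b3 * x3) * (b1 * y1 + b2 * y2 + b3 * y3) -
        (b1 ^ 2 + b2 ^ 2) * (x1 * y1 + x2 * y2 + x3 * y3) := by
    intro x1 x2 x3 y1 y2 y3; ring
  have hbb : b1 * b1 + b2 * b2 + b3 * b3 = b1 ^ 2 + b2 ^ 2 + b3 ^ 2 := by ring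
  have hmb : m1 * b1 + m2 * b2 + m3 * b3 = 0 := by linarith
  have hub : u1 * b1 + u2 * b2 + u3 * b3 = 0 := by linarith
  have k1 := key m1 m2 m3 u1 u2 u3
  have k2 := key m1 m2 m3 m1 m2 m3
  have k3 := key u1 u2 u3 u1 u2 u3
  have k4 := key m1 m2 m3 b1 b2 b3
  have k5 := key u1 u2 u3 b1 b2 b3
  rw [hbm, hbu, hmu] at k1
  rw [hbm, show m1 * m1 + m2 * m2 + m3 * m3 = 1 by linarith] at k2
  rw [hbu, show u1 * u1 + u2 * u2 + u3 * u3 = 1 by linarith] at k3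
  rw [hbm, hmb] at k4
  rw [hbu, hub] at k5
  linear_combination a * k1 + (s / 2) * k2 - (s / 2) * k3 + t * k4 + v * k5

lemma Q_zero {q : K × Co} (hk : q.1 ∈ KK) (h1 : Qwz q = 0) (h2 : Qww q = 0)
    (h3 : (Qzz q).re = 0) : q.2.2 = 0 := by
  obtain ⟨hm, hu, hmu⟩ := KK_real hk
  have r1 := congrArg Complex.re h1
  have i1 := congrArg Complex.im h1
  have r2 := congrArg Complex.re h2
  have i2 := congrArg Complex.im h2
  rw [Qwz_re] at r1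
  rw [Qwz_im] at i1
  rw [Qww_re] at r2
  rw [Qww_im] at i2
  rw [Qzz_re] at h3
  rw [nb_re, nb_snd] at r1
  rw [nb_im, nb_snd] at i1
  rw [nb_re, nb_im] at r2 i2
  rw [nb_snd] at h3
  simp only [zero_re, zero_im] at r1 i1 r2 i2
  have hch := ch_pos hk
  have := frame_zero hm hu hmu (a := 2 * q.1.2.2.1 * q.2.2.1) (s := -4 * q.1.2.2.1 * q.2.2.2.1)
    (t := 2 * q.1.2.2.1 * q.2.2.2.2.1) (v := 2 * q.2.2.2.2.2) _ (fun i j => rfl)
    (by simp; linarith) (by simp; linarith) (by simp; linarith) (by simp; linarith)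
    (by simp; linarith)
  obtain ⟨ha, hs, ht, hv⟩ := this
  have ea : q.2.2.1 = 0 := by
    rcases mul_eq_zero.mp ha with h | h
    · exfalso; linarith
    · exact h
  have es : q.2.2.2.1 = 0 := by
    rcases mul_eq_zero.mp hs with h | h
    · exfalso; linarith
    · exact h
  have et : q.2.2.2.2.1 = 0 := by
    rcases mul_eq_zero.mp ht with h | h
    · exfalso; linarith
    · exact h
  have ev : q.2.2.2.2.2 = 0 := by linarith
  exact Prod.ext ea (Prod.ext es (Prod.ext et ev))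

end

end Pool.Agent.TH638.Skew
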