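import Pool.Agent.TH638.Skew.Geom

/-!
The even map of the sphere into `ℂ × ℂ × ℝ × ℂ = ℝ⁷` and its relations.
-/

namespace Pool.Agent.TH638.Skew

open Complex Filter Topology Set
open scoped ComplexConjugate ContDiff

noncomputable section

/-- The relation between the affine tangent planes at `x` and `y`. -/
def relP (f : P → ℂ) (x y : P) (α : ℝ) (p q : P) : ℂ :=
  α * (f x - f y) + (fderiv ℝ f x p - fderiv ℝ f y q)

lemma relP_even {f : P → ℂ} (hf : ContDiff ℝ ∞ f) (he : ∀ p, f (-p) = f p) (x y : P) (α : ℝ)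
    (p q : P) : relP f x (-y) α p (-q) = relP f x y α p q := by
  have h1 : HasFDerivAt f (fderiv ℝ f (-y)) (-y) :=
    ((hf.differentiable (by simp)) (-y)).hasFDerivAt
  have h2 : HasFDerivAt (fun p : P => -p) (-(ContinuousLinearMap.id ℝ P)) y :=
    (hasFDerivAt_id y).neg
  have h3 : HasFDerivAt (fun p => f (-p)) ((fderiv ℝ f (-y)).comp (-(ContinuousLinearMap.id ℝ P))) y :=
    h1.comp y h2
  have h4 : (fun p => f (-p)) = f := funext he
  rw [h4] at h3
  have h5 : fderiv ℝ f y q = fderiv ℝ f (-y) (-q) := by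
    rw [h3.fderiv]; simp
  unfold relP
  rw [he, h5]

/-- The map `S² → ℂ × ℂ × ℝ × ℂ`. -/
def FF (ε δ : ℝ) (p : P) : ℂ × ℂ × ℝ × ℂ :=
  (p.1 * (p.2 : ℂ) + (δ * (-14 * I * ε)) * p.1 ^ 8,
    p.1 * p.1 + (δ * (10 * I)) * p.1 ^ 6,
    ((p.2 : ℂ) * (p.2 : ℂ)).re + δ * (-(32 * ((p.2 : ℂ) ^ 4).re + 44 * ε ^ 2 * (p.1 ^ 10).im)),
    p.1 ^ 3 * (p.2 : ℂ) + ε * (p.1 ^ 6 + conj (p.1 ^ 4)))

lemma good_wz' : Good (fun p : P => p.1 * (p.2 : ℂ)) := good_fst.mul good_snd
lemma good_ww' : Good (fun p : P => p.1 * p.1) := good_fst.mul good_fst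
lemma good_zz' : Good (fun p : P => (p.2 : ℂ) * (p.2 : ℂ)) := good_snd.mul good_snd
lemma good_wn (n : ℕ) : Good (fun p : P => p.1 ^ n) := good_fst.pow n
lemma good_zn (n : ℕ) : Good (fun p : P => (p.2 : ℂ) ^ n) := good_snd.pow n
lemma good_c4 : Good (fun p : P => conj (p.1 ^ 4)) := (good_wn 4).conj

lemma contDiff_FF (ε δ : ℝ) : ContDiff ℝ ∞ (FF ε δ) := by
  unfold FF
  have h1 := good_wz'.smooth
  have h2 := good_ww'.smooth
  have h3 := Complex.reCLM.contDiff.comp good_zz'.smooth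
  have h4 := Complex.reCLM.contDiff.comp (good_zn 4).smooth
  have h5 := Complex.imCLM.contDiff.comp (good_wn 10).smooth
  have h6 := (good_wn 6).smooth
  have h8 := (good_wn 8).smooth
  have h9 := good_w3z.smooth
  have h10 := good_c4.smooth
  refine ContDiff.prodMk (h1.add (contDiff_const.mul h8)) (ContDiff.prodMk
    (h2.add (contDiff_const.mul h6)) (ContDiff.prodMk
    (h3.add (contDiff_const.mul ((contDiff_const.mul h4).add (contDiff_const.mul h5)).neg))
    (h9.add (contDiff_const.mul (h6.add h10)))))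

lemma FF_neg (ε δ : ℝ) (p : P) : FF ε δ (-p) = FF ε δ p := by
  simp only [FF, Prod.fst_neg, Prod.snd_neg]
  have e : ((-p.2 : ℝ) : ℂ) = -(p.2 : ℂ) := by push_cast; ring
  have e2 : (-p.1) ^ 2 = p.1 ^ 2 := by ring
  rw [e]
  refine Prod.ext ?_ (Prod.ext ?_ (Prod.ext ?_ ?_))
  · simp only; ring
  · simp only; ring
  · simp only
    have a1 : -(p.2 : ℂ) * -(p.2 : ℂ) = (p.2 : ℂ) * (p.2 : ℂ) := by ring
    have a2 : (-(p.2 : ℂ)) ^ 4 = (p.2 : ℂ) ^ 4 := by ring
    have a3 : (-p.1) ^ 10 = p.1 ^ 10 := by ring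
    rw [a1, a2, a3]
  · simp only
    have a2 : (-p.1) ^ 4 = p.1 ^ 4 := by ring
    have a3 : (-p.1) ^ 6 = p.1 ^ 6 := by ring
    rw [a2, a3]
    ring

/-- The components of a relation for `FF`. -/
lemma FF_rel {ε δ : ℝ} {x y : P} {α : ℝ} {p q : P}
    (h : α • (FF ε δ x - FF ε δ y) + (fderiv ℝ (FF ε δ) x p - fderiv ℝ (FF ε δ) y q) = 0) :
    relP (fun p => p.1 * (p.2 : ℂ)) x y α p q +
        δ * (-14 * I * ε * relP (fun p => p.1 ^ 8) x y α p q) = 0 ∧
      relP (fun p => p.1 * p.1) x y α p q +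
        δ * (10 * I * relP (fun p => p.1 ^ 6) x y α p q) = 0 ∧
      (relP (fun p => (p.2 : ℂ) * (p.2 : ℂ)) x y α p q).re +
        δ * (-(32 * (relP (fun p => (p.2 : ℂ) ^ 4) x y α p q).re +
          44 * ε ^ 2 * (relP (fun p => p.1 ^ 10) x y α p q).im)) = 0 ∧
      relP (fun p => p.1 ^ 3 * (p.2 : ℂ)) x y α p q +
        ε * (relP (fun p => p.1 ^ 6) x y α p q +
          relP (fun p => conj (p.1 ^ 4)) x y α p q) = 0 := by
  have hd : ∀ z v, fderiv ℝ (FF ε δ) z v =
      (fderiv ℝ (fun p : P => p.1 * (p.2 : ℂ)) z v +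
        (δ * (-14 * I * ε)) * fderiv ℝ (fun p : P => p.1 ^ 8) z v,
      fderiv ℝ (fun p : P => p.1 * p.1) z v +
        (δ * (10 * I)) * fderiv ℝ (fun p : P => p.1 ^ 6) z v,
      (fderiv ℝ (fun p : P => (p.2 : ℂ) * (p.2 : ℂ)) z v).re +
        δ * (-(32 * (fderiv ℝ (fun p : P => (p.2 : ℂ) ^ 4) z v).re +
          44 * ε ^ 2 * (fderiv ℝ (fun p : P => p.1 ^ 10) z v).im)),
      fderiv ℝ (fun p : P => p.1 ^ 3 * (p.2 : ℂ)) z v +
        ε * (fderiv ℝ (fun p : P => p.1 ^ 6) z v +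
          fderiv ℝ (fun p : P => conj (p.1 ^ 4)) z v)) := by
    intro z v
    have h1 := (good_wz'.diff z).hasFDerivAt
    have h2 := (good_ww'.diff z).hasFDerivAt
    have h3 : HasFDerivAt (fun p : P => ((p.2 : ℂ) * (p.2 : ℂ)).re) _ z :=
      Complex.reCLM.hasFDerivAt.comp z (good_zz'.diff z).hasFDerivAt
    have h4 : HasFDerivAt (fun p : P => ((p.2 : ℂ) ^ 4).re) _ z :=
      Complex.reCLM.hasFDerivAt.comp z ((good_zn 4).diff z).hasFDerivAt
    have h5 : HasFDerivAt (fun p : P => (p.1 ^ 10).im) _ z :=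
      Complex.imCLM.hasFDerivAt.comp z ((good_wn 10).diff z).hasFDerivAt
    have h6 := ((good_wn 6).diff z).hasFDerivAt
    have h8 := ((good_wn 8).diff z).hasFDerivAt
    have h9 := (good_w3z.diff z).hasFDerivAt
    have h10 := (good_c4.diff z).hasFDerivAt
    have hF : HasFDerivAt (FF ε δ) _ z :=
      (h1.add (h8.const_mul ((δ * (-14 * I * ε)) : ℂ))).prodMk
        ((h2.add (h6.const_mul ((δ * (10 * I)) : ℂ))).prodMk
          ((h3.add (((h4.const_mul (32 : ℝ)).add (h5.const_mul (44 * ε ^ 2))).neg.const_mul δ)).prodMk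
            (h9.add ((h6.add h10).const_mul (ε : ℂ)))))
    rw [hF.fderiv]
    refine Prod.ext ?_ (Prod.ext ?_ (Prod.ext ?_ ?_))
    · simp
    · simp
    · simp only [ContinuousLinearMap.prod_apply, ContinuousLinearMap.add_apply,
        ContinuousLinearMap.smul_apply, ContinuousLinearMap.neg_apply,
        ContinuousLinearMap.comp_apply, reCLM_apply, imCLM_apply, smul_eq_mul]
    · simp only [ContinuousLinearMap.prod_apply, ContinuousLinearMap.add_apply,
        ContinuousLinearMap.smul_apply, smul_eq_mul]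
  rw [hd, hd] at h
  have g1 := congrArg (fun q : ℂ × ℂ × ℝ × ℂ => q.1) h
  have g2 := congrArg (fun q : ℂ × ℂ × ℝ × ℂ => q.2.1) h
  have g3 := congrArg (fun q : ℂ × ℂ × ℝ × ℂ => q.2.2.1) h
  have g4 := congrArg (fun q : ℂ × ℂ × ℝ × ℂ => q.2.2.2) h
  simp only [FF, Prod.fst_add, Prod.snd_add, Prod.smul_fst, Prod.smul_snd, Prod.fst_sub,
    Prod.snd_sub, Prod.fst_zero, Prod.snd_zero, Complex.real_smul, smul_eq_mul] at g1 g2 g3 g4
  refine ⟨?_, ?_, ?_, ?_⟩
  · unfold relP; linear_combination g1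
  · unfold relP; linear_combination g2
  · unfold relP
    rw [add_re, add_re, add_im, re_ofReal_mul, re_ofReal_mul, im_ofReal_mul, sub_re, sub_re, sub_re,
      sub_re, sub_im, sub_im]
    linear_combination g3
  · unfold relP; linear_combination g4

lemma dot_comm (p q : P) : dot p q = dot q p := by
  simp only [dot]; ring

lemma dot_neg_right (p q : P) : dot p (-q) = -dot p q := by
  simp only [dot, Prod.fst_neg, Prod.snd_neg, neg_re, neg_im]; ring

lemma dot_neg_left (p q : P) : dot (-p) q = -dot p q := by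
  simp only [dot, Prod.fst_neg, Prod.snd_neg, neg_re, neg_im]; ring

/-- `δ` is admissible for `ε`. -/
def Adm (ε δ : ℝ) : Prop :=
  ∀ k ∈ KK, k.2.2.2 ≠ 0 → ∀ α pu qu pb qb : ℝ,
      rel (fun p => p.1 * (p.2 : ℂ)) k α pu qu pb qb +
        δ * (-14 * I * ε * rel (fun p => p.1 ^ 8) k α pu qu pb qb) = 0 →
      rel (fun p => p.1 * p.1) k α pu qu pb qb +
        δ * (10 * I * rel (fun p => p.1 ^ 6) k α pu qu pb qb) = 0 →
      (rel (fun p => (p.2 : ℂ) * (p.2 : ℂ)) k α pu qu pb qb).re +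
        δ * (-(32 * (rel (fun p => (p.2 : ℂ) ^ 4) k α pu qu pb qb).re +
          44 * ε ^ 2 * (rel (fun p => p.1 ^ 10) k α pu qu pb qb).im)) = 0 →
      rel (fun p => p.1 ^ 3 * (p.2 : ℂ)) k α pu qu pb qb +
        ε * (rel (fun p => p.1 ^ 6) k α pu qu pb qb +
          rel (fun p => conj (p.1 ^ 4)) k α pu qu pb qb) = 0 →
      α = 0 ∧ pu = 0 ∧ qu = 0 ∧ pb = 0 ∧ qb = 0

theorem exists_adm : ∃ ε δ : ℝ, Adm ε δ := by
  obtain ⟨ε, hε, h⟩ := star
  obtain ⟨δ, hδ, h'⟩ := exists_delta h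
  exact ⟨ε, δ, h'⟩

/-- The relation for points with nonnegative scalar product. -/
lemma no_rel_pos {ε δ : ℝ} (hA : Adm ε δ) {x y p q : P} {α : ℝ} (hx : dot x x = 1)
    (hy : dot y y = 1) (hxy : 0 ≤ dot x y) (hne : x ≠ y) (hp : dot x p = 0) (hq : dot y q = 0)
    (h1 : relP (fun p => p.1 * (p.2 : ℂ)) x y α p q +
        δ * (-14 * I * ε * relP (fun p => p.1 ^ 8) x y α p q) = 0)
    (h2 : relP (fun p => p.1 * p.1) x y α p q +
        δ * (10 * I * relP (fun p => p.1 ^ 6) x y α p q) = 0)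
    (h3 : (relP (fun p => (p.2 : ℂ) * (p.2 : ℂ)) x y α p q).re +
        δ * (-(32 * (relP (fun p => (p.2 : ℂ) ^ 4) x y α p q).re +
          44 * ε ^ 2 * (relP (fun p => p.1 ^ 10) x y α p q).im)) = 0)
    (h4 : relP (fun p => p.1 ^ 3 * (p.2 : ℂ)) x y α p q +
        ε * (relP (fun p => p.1 ^ 6) x y α p q +
          relP (fun p => conj (p.1 ^ 4)) x y α p q) = 0) : α = 0 ∧ p = 0 ∧ q = 0 := by
  obtain ⟨k, hk, hsh, rfl, rfl⟩ := exists_circle hx hy hxy hne
  obtain ⟨a1, a2, a3, a4, b1, b2, b3, b4⟩ := KK_dot hk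
  have ep := frame_expand a1 a2 a3 p
  have eq := frame_expand b1 b2 b3 q
  rw [dot_comm p (px k), hp, zero_smul, zero_add, a4] at ep
  rw [dot_comm q (py k), hq, zero_smul, zero_add, b4] at eq
  have hrel : ∀ f : P → ℂ, relP f (px k) (py k) α p q =
      rel f k α (dot p (dx k)) (dot q (dy k)) (dot p (nb k)) (dot q (nb k)) := by
    intro f
    unfold relP rel
    rw [← ep, ← eq]
  simp only [hrel] at h1 h2 h3 h4
  obtain ⟨r1, r2, r3, r4, r5⟩ := hA k hk hsh _ _ _ _ _ h1 h2 h3 h4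
  refine ⟨r1, ?_, ?_⟩
  · rw [ep, r2, r4]; simp
  · rw [eq, r3, r5]; simp

/-- There is no nontrivial relation between the affine tangent planes at two points of the sphere
that are neither equal nor antipodal. -/
theorem no_rel {ε δ : ℝ} (hA : Adm ε δ) {x y p q : P} {α : ℝ} (hx : dot x x = 1)
    (hy : dot y y = 1) (hne : x ≠ y) (hne' : x ≠ -y) (hp : dot x p = 0) (hq : dot y q = 0)
    (h : α • (FF ε δ x - FF ε δ y) + (fderiv ℝ (FF ε δ) x p - fderiv ℝ (FF ε δ) y q) = 0) :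
    α = 0 ∧ p = 0 ∧ q = 0 := by
  obtain ⟨h1, h2, h3, h4⟩ := FF_rel h
  rcases le_or_gt 0 (dot x y) with hxy | hxy
  · exact no_rel_pos hA hx hy hxy hne hp hq h1 h2 h3 h4
  · have hy' : dot (-y) (-y) = 1 := by rw [dot_neg_left, dot_neg_right, neg_neg, hy]
    have hq' : dot (-y) (-q) = 0 := by rw [dot_neg_left, dot_neg_right, neg_neg, hq]
    have hxy' : 0 ≤ dot x (-y) := by rw [dot_neg_right]; linarith
    have e1 := relP_even good_wz'.smooth (by intro p; simp) x y α p q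
    have e2 := relP_even good_ww'.smooth (by intro p; simp) x y α p q
    have e3 := relP_even good_zz'.smooth (by intro p; simp) x y α p q
    have e4 := relP_even (good_zn 4).smooth (by
      intro p; simp only [Prod.snd_neg]; push_cast; ring) x y α p q
    have e6 := relP_even (good_wn 6).smooth (by
      intro p; simp only [Prod.fst_neg]; ring) x y α p q
    have e8 := relP_even (good_wn 8).smooth (by
      intro p; simp only [Prod.fst_neg]; ring) x y α p q
    have e10 := relP_even (good_wn 10).smooth (by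
      intro p; simp only [Prod.fst_neg]; ring) x y α p q
    have e9 := relP_even good_w3z.smooth (by
      intro p; simp only [Prod.fst_neg, Prod.snd_neg]; push_cast; ring) x y α p q
    have ec := relP_even good_c4.smooth (by
      intro p
      simp only [Prod.fst_neg]
      congr 1
      ring) x y α p q
    rw [← e1, ← e8] at h1
    rw [← e2, ← e6] at h2
    rw [← e3, ← e4, ← e10] at h3
    rw [← e9, ← e6, ← ec] at h4
    obtain ⟨r1, r2, r3⟩ := no_rel_pos hA hx hy' hxy' hne' hp hq' h1 h2 h3 h4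
    exact ⟨r1, r2, neg_eq_zero.mp r3⟩

/-- A point of the sphere different from `± x`. -/
lemma exists_third {x : P} (hx : dot x x = 1) : ∃ y : P, dot y y = 1 ∧ x ≠ y ∧ x ≠ -y := by
  by_cases h : x.2 ^ 2 = 1
  · refine ⟨(1, 0), by simp [dot], ?_, ?_⟩
    · rintro rfl; simp at h
    · intro h'; rw [h'] at h; simp at h
  · refine ⟨(0, 1), by simp [dot], ?_, ?_⟩
    · rintro rfl; simp at h
    · intro h'; rw [h'] at h; simp at h

theorem FF_immersion {ε δ : ℝ} (hA : Adm ε δ) {x p : P} (hx : dot x x = 1) (hp : dot x p = 0)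
    (h : fderiv ℝ (FF ε δ) x p = 0) : p = 0 := by
  obtain ⟨y, hy, h1, h2⟩ := exists_third hx
  have := no_rel hA (x := x) (y := y) (p := p) (q := 0) (α := 0) hx hy h1 h2 hp (by simp [dot])
    (by rw [h]; simp)
  exact this.2.1

theorem FF_inj {ε δ : ℝ} (hA : Adm ε δ) {x y : P} (hx : dot x x = 1) (hy : dot y y = 1)
    (h : FF ε δ x = FF ε δ y) : x = y ∨ x = -y := by
  by_contra hne
  rw [not_or] at hne
  have := no_rel hA (x := x) (y := y) (p := 0) (q := 0) (α := 1) hx hy hne.1 hne.2 (by simp [dot])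
    (by simp [dot]) (by rw [h]; simp)
  exact one_ne_zero this.1

end

end Pool.Agent.TH638.Skew
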