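import Mathlib

/-!
The algebraic core of the totally skew embedding of the projective plane into `ℝ⁷`.

A great circle of `S² ⊂ ℂ × ℝ` is `w = A e^{it} + B e^{-it}`, `z = C e^{it} + conj C e^{-it}` with
`C² = - A conj B`, `|A| + |B| = 1`. The functions `HH` and `GG` are, up to constants, the defects of
the two components `w³ z + ε (w⁶ + conj w ⁴)` and `E₃` on the pair of points `t = ± h`, `c = cos 2h`.
For small `ε` they have no common zero.
-/

namespace Pool.Agent.TH638.Skew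

open Complex Filter Topology Set
open scoped ComplexConjugate

noncomputable section

/-- The modes of `w⁶`. -/
def S6 (c : ℝ) (A B : ℂ) : ℂ := 8 * c * (A ^ 6 - B ^ 6) + 12 * (A * B) * (A ^ 4 - B ^ 4)

/-- The modes of `w⁸`. -/
def S8 (c : ℝ) (A B : ℂ) : ℂ :=
  (24 * c ^ 2 - 4) * (A ^ 8 - B ^ 8) + 64 * c * (A * B) * (A ^ 6 - B ^ 6) +
    56 * (A * B) ^ 2 * (A ^ 4 - B ^ 4)

/-- The modes of `w¹⁰`. -/
def S10 (c : ℝ) (A B : ℂ) : ℂ :=
  (64 * c ^ 3 - 24 * c) * (A ^ 10 - B ^ 10) + 10 * (24 * c ^ 2 - 4) * (A * B) * (A ^ 8 - B ^ 8) +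
    360 * c * (A * B) ^ 2 * (A ^ 6 - B ^ 6) + 240 * (A * B) ^ 3 * (A ^ 4 - B ^ 4)

/-- The defect of `w³ z + ε (w⁶ + conj w ⁴)`. -/
def HH (ε c : ℝ) (A B C : ℂ) : ℂ :=
  A ^ 3 * C - conj C * B ^ 3 + ε * (4 * c * (A ^ 6 - B ^ 6) + 6 * (A * B) * (A ^ 4 - B ^ 4) +
    (conj B ^ 4 - conj A ^ 4))

/-- The complex component of the normal `b`. -/
def bw (A B C : ℂ) : ℂ := 2 * (C * B - conj C * A)

/-- The real component of the normal `b`. -/
def bz (A B : ℂ) : ℝ := normSq A - normSq B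

/-- The defect of `E₃`. -/
def GG (ε c : ℝ) (A B C : ℂ) : ℝ :=
  -5 * (conj (bw A B C) ^ 2 * S6 c A B).re + 28 * ε * bz A B * (conj (bw A B C) * S8 c A B).re +
    (bz A B ^ 2 - normSq (bw A B C) / 2) * (128 * (C ^ 4).im - 44 * ε ^ 2 * (S10 c A B).re)

lemma HH_swap (ε c : ℝ) (A B C : ℂ) : HH ε c B A (conj C) = - HH ε c A B C := by
  simp only [HH, Complex.conj_conj]
  ring

lemma bw_swap (A B C : ℂ) : bw B A (conj C) = - bw A B C := by
  simp only [bw, Complex.conj_conj]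
  ring

lemma bz_swap (A B : ℂ) : bz B A = - bz A B := by
  simp only [bz]; ring

lemma S6_swap (c : ℝ) (A B : ℂ) : S6 c B A = - S6 c A B := by
  simp only [S6]; ring

lemma S8_swap (c : ℝ) (A B : ℂ) : S8 c B A = - S8 c A B := by
  simp only [S8]; ring

lemma S10_swap (c : ℝ) (A B : ℂ) : S10 c B A = - S10 c A B := by
  simp only [S10]; ring

lemma GG_swap (ε c : ℝ) (A B C : ℂ) : GG ε c B A (conj C) = - GG ε c A B C := by
  have h4 : ((conj C) ^ 4).im = - (C ^ 4).im := by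
    rw [← map_pow, Complex.conj_im]
  unfold GG
  rw [h4, bw_swap A B C, bz_swap A B, S6_swap c A B, S8_swap c A B, S10_swap c A B, normSq_neg]
  simp only [map_neg, neg_sq, mul_neg, neg_mul, neg_re, neg_neg]
  ring

/-! ### The region where `A`, `B` are comparable -/

/-- The set of circles with `1/4 ≤ |B| ≤ |A|`. -/
def KB : Set (ℂ × ℂ × ℂ × ℝ) :=
  {k | ‖k.1‖ + ‖k.2.1‖ = 1 ∧ 1 / 4 ≤ ‖k.2.1‖ ∧ 1 / 4 ≤ ‖k.1‖ ∧ k.2.2.1 ^ 2 = - (k.1 * conj k.2.1) ∧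
    0 ≤ k.2.2.2 ∧ k.2.2.2 ≤ 1}

lemma norm_C {A B C : ℂ} (h : C ^ 2 = - (A * conj B)) : ‖C‖ ^ 2 = ‖A‖ * ‖B‖ := by
  rw [← norm_pow, h, norm_neg, norm_mul, RCLike.norm_conj]

lemma norm_C_le {A B C : ℂ} (h : C ^ 2 = - (A * conj B)) (hAB : ‖A‖ + ‖B‖ = 1) : ‖C‖ ≤ 1 := by
  have h1 := norm_C h
  have hA := norm_nonneg A
  have hB := norm_nonneg B
  have hC := norm_nonneg C
  nlinarith

lemma KB_compact : IsCompact KB := by
  apply Metric.isCompact_of_isClosed_isBounded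
  · refine IsClosed.and (isClosed_eq (by fun_prop) (by fun_prop)) ?_
    refine IsClosed.and (isClosed_le (by fun_prop) (by fun_prop)) ?_
    refine IsClosed.and (isClosed_le (by fun_prop) (by fun_prop)) ?_
    refine IsClosed.and (isClosed_eq (by fun_prop) ?_) ?_
    · exact (continuous_fst.mul (Complex.continuous_conj.comp (by fun_prop))).neg
    exact IsClosed.and (isClosed_le (by fun_prop) (by fun_prop))
      (isClosed_le (by fun_prop) (by fun_prop))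
  · refine (Metric.isBounded_closedBall (x := (0 : ℂ × ℂ × ℂ × ℝ)) (r := 1)).subset ?_
    rintro ⟨A, B, C, c⟩ ⟨h1, h2, h3, h4, h5, h6⟩
    simp only at h1 h2 h3 h4 h5 h6
    rw [mem_closedBall_zero_iff, Prod.norm_def, Prod.norm_def, Prod.norm_def]
    have hC := norm_C_le h4 h1
    have hc : ‖c‖ ≤ 1 := by rw [Real.norm_eq_abs, abs_of_nonneg h5]; exact h6
    refine max_le ?_ (max_le ?_ (max_le hC hc))
    · simp only; linarith [norm_nonneg B]
    · simp only; linarith [norm_nonneg A]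

lemma normSq_bw {A B C : ℂ} (h : C ^ 2 = - (A * conj B)) (hAB : ‖A‖ + ‖B‖ = 1) :
    normSq (bw A B C) = 4 * ‖A‖ * ‖B‖ := by
  have hC := norm_C h
  have e1 : normSq (bw A B C) = 4 * (normSq (C * B) + normSq (conj C * A) -
      2 * ((C * B) * conj (conj C * A)).re) := by
    rw [bw, map_mul, normSq_sub]
    norm_num
  have e2 : (C * B) * conj (conj C * A) = - ((normSq A : ℂ) * (normSq B : ℂ)) := by
    rw [map_mul, Complex.conj_conj, ← mul_conj, ← mul_conj]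
    linear_combination (B * conj A) * h
  have e3 : (- ((normSq A : ℂ) * (normSq B : ℂ))).re = - (‖A‖ ^ 2 * ‖B‖ ^ 2) := by
    rw [← ofReal_mul, ← ofReal_neg, ofReal_re, normSq_eq_norm_sq, normSq_eq_norm_sq]
  rw [e1, e2, e3, map_mul, map_mul, normSq_conj, normSq_eq_norm_sq, normSq_eq_norm_sq,
    normSq_eq_norm_sq, hC]
  have h2 : (‖A‖ + ‖B‖) ^ 2 = 1 := by rw [hAB]; norm_num
  linear_combination (4 * ‖A‖ * ‖B‖) * h2

lemma KB_zero {A B C : ℂ} {c : ℝ} (hk : (A, B, C, c) ∈ KB) :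
    ¬ (HH 0 c A B C = 0 ∧ GG 0 c A B C = 0) := by
  obtain ⟨h1, h2, h3, h4, h5, h6⟩ := hk
  simp only at h1 h2 h3 h4 h5 h6
  rintro ⟨hH, hG⟩
  have hC := norm_C h4
  have hCpos : 0 < ‖C‖ := by
    rcases (norm_nonneg C).lt_or_eq with h | h
    · exact h
    · exfalso
      rw [← h] at hC
      nlinarith
  have hC0 : C ≠ 0 := norm_pos_iff.mp hCpos
  have hH' : A ^ 3 * C = conj C * B ^ 3 := by
    have : HH 0 c A B C = A ^ 3 * C - conj C * B ^ 3 := by simp [HH]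
    rw [this] at hH
    exact sub_eq_zero.mp hH
  have hn : ‖A‖ ^ 3 = ‖B‖ ^ 3 := by
    have := congrArg norm hH'
    rw [norm_mul, norm_mul, norm_pow, norm_pow, RCLike.norm_conj] at this
    have h := mul_right_cancel₀ hCpos.ne' (this.trans (mul_comm _ _))
    exact h
  have hAB : ‖A‖ = ‖B‖ := by
    exact (pow_left_inj₀ (norm_nonneg A) (norm_nonneg B) (by norm_num)).mp hn
  have hB : ‖B‖ = 1 / 2 := by linarith
  have hA : ‖A‖ = 1 / 2 := by linarith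
  have hC4 : ‖C‖ ^ 2 = 1 / 4 := by rw [hC, hA, hB]; norm_num
  have hC8 : C ^ 8 = -(1 / 256) := by
    apply mul_right_cancel₀ hC0
    have e1 : C ^ 8 * C = A ^ 3 * C * (A * conj B ^ 4) := by
      have : C ^ 8 = (C ^ 2) ^ 4 := by ring
      rw [this, h4]; ring
    have e2 : (normSq B : ℂ) = 1 / 4 := by
      rw [normSq_eq_norm_sq, hB]; push_cast; norm_num
    have e3 : (normSq C : ℂ) = 1 / 4 := by
      rw [normSq_eq_norm_sq, hC4]; push_cast; norm_num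
    have e4 : B * conj B = 1 / 4 := by rw [mul_conj, e2]
    have e5 : C * conj C = 1 / 4 := by rw [mul_conj, e3]
    rw [e1, hH']
    have : conj C * B ^ 3 * (A * conj B ^ 4) = (B * conj B) ^ 3 * (conj C * (A * conj B)) := by
      ring
    rw [this, e4]
    have h4' : A * conj B = - C ^ 2 := by rw [h4]; ring
    rw [h4']
    linear_combination (-(1 / 4) ^ 3 * C) * e5
  have hre : (C ^ 4).re ^ 2 - (C ^ 4).im ^ 2 = -(1 / 256) := by
    have := congrArg Complex.re hC8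
    have e : C ^ 8 = C ^ 4 * C ^ 4 := by ring
    rw [e, mul_re] at this
    norm_num at this
    linarith
  have hns : (C ^ 4).re ^ 2 + (C ^ 4).im ^ 2 = 1 / 256 := by
    have : normSq (C ^ 4) = 1 / 256 := by
      rw [map_pow, normSq_eq_norm_sq, hC4]; norm_num
    rw [normSq_apply] at this
    linarith
  have him : (C ^ 4).im ^ 2 = (1 / 16) ^ 2 := by linarith
  have hbz : bz A B = 0 := by
    rw [bz, normSq_eq_norm_sq, normSq_eq_norm_sq, hAB]; ring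
  have hbw : normSq (bw A B C) = 1 := by
    rw [normSq_bw h4 h1, hA, hB]; norm_num
  have hS6 : ‖S6 c A B‖ ≤ 5 / 8 := by
    have hc : ‖(8 * c : ℂ)‖ ≤ 8 := by
      rw [norm_mul, Complex.norm_real, Real.norm_eq_abs, abs_of_nonneg h5]
      norm_num
      exact h6
    calc ‖S6 c A B‖ ≤ ‖8 * c * (A ^ 6 - B ^ 6)‖ + ‖12 * (A * B) * (A ^ 4 - B ^ 4)‖ :=
          norm_add_le _ _
      _ ≤ 8 * (‖A‖ ^ 6 + ‖B‖ ^ 6) + 12 * (‖A‖ * ‖B‖) * (‖A‖ ^ 4 + ‖B‖ ^ 4) := by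
          gcongr
          · rw [norm_mul]
            gcongr
            refine (norm_sub_le _ _).trans ?_
            rw [norm_pow, norm_pow]
          · rw [norm_mul, norm_mul, norm_mul]
            gcongr
            · norm_num
            · refine (norm_sub_le _ _).trans ?_
              rw [norm_pow, norm_pow]
      _ = 5 / 8 := by rw [hA, hB]; norm_num
  have hbound : |(conj (bw A B C) ^ 2 * S6 c A B).re| ≤ 5 / 8 := by
    refine (abs_re_le_norm _).trans ?_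
    rw [norm_mul, norm_pow, RCLike.norm_conj, ← normSq_eq_norm_sq, hbw, one_mul]
    exact hS6
  rw [GG, hbz, hbw] at hG
  have hG' : -5 * (conj (bw A B C) ^ 2 * S6 c A B).re - 64 * (C ^ 4).im = 0 := by
    rw [← hG]; ring
  have habs : |(C ^ 4).im| = 1 / 16 := by
    rw [← Real.sqrt_sq_eq_abs, him, Real.sqrt_sq (by norm_num)]
  have h64 : 64 * |(C ^ 4).im| = 5 * |(conj (bw A B C) ^ 2 * S6 c A B).re| := by
    have : 64 * (C ^ 4).im = -(5 * (conj (bw A B C) ^ 2 * S6 c A B).re) := by linarith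
    have h := congrArg abs this
    rw [abs_neg, abs_mul, abs_mul] at h
    norm_num at h
    exact h
  rw [habs] at h64
  linarith

lemma HH_cont : Continuous (fun p : ℝ × (ℂ × ℂ × ℂ × ℝ) =>
    HH p.1 p.2.2.2.2 p.2.1 p.2.2.1 p.2.2.2.1) := by
  unfold HH
  have h1 : Continuous (fun p : ℝ × (ℂ × ℂ × ℂ × ℝ) => conj p.2.2.2.1) :=
    Complex.continuous_conj.comp (by fun_prop)
  have h2 : Continuous (fun p : ℝ × (ℂ × ℂ × ℂ × ℝ) => conj p.2.2.1) :=
    Complex.continuous_conj.comp (by fun_prop)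
  have h3 : Continuous (fun p : ℝ × (ℂ × ℂ × ℂ × ℝ) => conj p.2.1) :=
    Complex.continuous_conj.comp (by fun_prop)
  fun_prop

lemma S6_cont {X : Type*} [TopologicalSpace X] {c : X → ℝ} {A B : X → ℂ} (hc : Continuous c)
    (hA : Continuous A) (hB : Continuous B) : Continuous (fun x => S6 (c x) (A x) (B x)) := by
  unfold S6; fun_prop

lemma S8_cont {X : Type*} [TopologicalSpace X] {c : X → ℝ} {A B : X → ℂ} (hc : Continuous c)
    (hA : Continuous A) (hB : Continuous B) : Continuous (fun x => S8 (c x) (A x) (B x)) := by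
  unfold S8; fun_prop

lemma S10_cont {X : Type*} [TopologicalSpace X] {c : X → ℝ} {A B : X → ℂ} (hc : Continuous c)
    (hA : Continuous A) (hB : Continuous B) : Continuous (fun x => S10 (c x) (A x) (B x)) := by
  unfold S10; fun_prop

lemma bw_cont {X : Type*} [TopologicalSpace X] {A B C : X → ℂ} (hA : Continuous A)
    (hB : Continuous B) (hC : Continuous C) : Continuous (fun x => bw (A x) (B x) (C x)) := by
  unfold bw
  have h1 : Continuous (fun x => conj (C x)) := Complex.continuous_conj.comp hC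
  fun_prop

lemma bz_cont {X : Type*} [TopologicalSpace X] {A B : X → ℂ} (hA : Continuous A)
    (hB : Continuous B) : Continuous (fun x => bz (A x) (B x)) := by
  unfold bz
  exact (continuous_normSq.comp hA).sub (continuous_normSq.comp hB)

lemma GG_cont : Continuous (fun p : ℝ × (ℂ × ℂ × ℂ × ℝ) =>
    GG p.1 p.2.2.2.2 p.2.1 p.2.2.1 p.2.2.2.1) := by
  unfold GG
  have hA : Continuous (fun p : ℝ × (ℂ × ℂ × ℂ × ℝ) => p.2.1) := by fun_prop
  have hB : Continuous (fun p : ℝ × (ℂ × ℂ × ℂ × ℝ) => p.2.2.1) := by fun_prop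
  have hC : Continuous (fun p : ℝ × (ℂ × ℂ × ℂ × ℝ) => p.2.2.2.1) := by fun_prop
  have hc : Continuous (fun p : ℝ × (ℂ × ℂ × ℂ × ℝ) => p.2.2.2.2) := by fun_prop
  have h1 := bw_cont hA hB hC
  have h2 := bz_cont hA hB
  have h3 := S6_cont hc hA hB
  have h4 := S8_cont hc hA hB
  have h5 := S10_cont hc hA hB
  have h6 := Complex.continuous_conj.comp h1
  have h7 := continuous_normSq.comp h1
  have e1 : Continuous (fun p : ℝ × (ℂ × ℂ × ℂ × ℝ) =>
      (conj (bw p.2.1 p.2.2.1 p.2.2.2.1) ^ 2 * S6 p.2.2.2.2 p.2.1 p.2.2.1).re) :=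
    Complex.continuous_re.comp ((h6.pow 2).mul h3)
  have e2 : Continuous (fun p : ℝ × (ℂ × ℂ × ℂ × ℝ) =>
      (conj (bw p.2.1 p.2.2.1 p.2.2.2.1) * S8 p.2.2.2.2 p.2.1 p.2.2.1).re) :=
    Complex.continuous_re.comp (h6.mul h4)
  have e3 : Continuous (fun p : ℝ × (ℂ × ℂ × ℂ × ℝ) => (S10 p.2.2.2.2 p.2.1 p.2.2.1).re) :=
    Complex.continuous_re.comp h5
  have e4 : Continuous (fun p : ℝ × (ℂ × ℂ × ℂ × ℝ) => (p.2.2.2.1 ^ 4).im) :=
    Complex.continuous_im.comp (hC.pow 4)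
  have e5 : Continuous (fun p : ℝ × (ℂ × ℂ × ℂ × ℝ) =>
      normSq (bw p.2.1 p.2.2.1 p.2.2.2.1)) := h7
  fun_prop

/-- A family of pairs of continuous functions that do not vanish together on a compact set at the
parameter `0` do not vanish together for small parameters. -/
lemma eventually_ne {Y : Type*} [TopologicalSpace Y] {K : Set Y} (hK : IsCompact K)
    {f : ℝ × Y → ℝ} (hf : Continuous f) (h0 : ∀ y ∈ K, f (0, y) ≠ 0) :
    ∀ᶠ e : ℝ in 𝓝 0, ∀ y ∈ K, f (e, y) ≠ 0 := by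
  apply hK.eventually_forall_of_forall_eventually
  intro y hy
  exact hf.continuousAt.eventually_ne (h0 y hy)

lemma KB_eventually : ∀ᶠ e : ℝ in 𝓝 0, ∀ k ∈ KB,
    ¬ (HH e k.2.2.2 k.1 k.2.1 k.2.2.1 = 0 ∧ GG e k.2.2.2 k.1 k.2.1 k.2.2.1 = 0) := by
  have h := eventually_ne KB_compact (f := fun p : ℝ × (ℂ × ℂ × ℂ × ℝ) =>
    ‖HH p.1 p.2.2.2.2 p.2.1 p.2.2.1 p.2.2.2.1‖ + ‖GG p.1 p.2.2.2.2 p.2.1 p.2.2.1 p.2.2.2.1‖)
    (HH_cont.norm.add GG_cont.norm) (by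
      rintro ⟨A, B, C, c⟩ hk h
      have h1 := norm_nonneg (HH 0 c A B C)
      have h2 := norm_nonneg (GG 0 c A B C)
      simp only at h
      exact KB_zero hk ⟨norm_eq_zero.mp (by linarith), norm_eq_zero.mp (by linarith)⟩)
  filter_upwards [h] with e he k hk h
  apply he k hk
  simp [h.1, h.2]

/-! ### The region where `B` is small -/

/-- `HH / ε` in the variables `C = ε s`, `B = ε² B'`. -/
def HA (ε c : ℝ) (A B s : ℂ) : ℂ :=
  A ^ 3 * s - ε ^ 6 * (conj s * B ^ 3) + (4 * c * (A ^ 6 - ε ^ 12 * B ^ 6) +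
    6 * ε ^ 2 * (A * B) * (A ^ 4 - ε ^ 8 * B ^ 4) + (ε ^ 8 * conj B ^ 4 - conj A ^ 4))

/-- `bw / ε`. -/
def bA (ε : ℝ) (A B s : ℂ) : ℂ := 2 * (ε ^ 2 * (s * B) - conj s * A)

/-- `GG / ε²`. -/
def GA (ε c : ℝ) (A B s : ℂ) : ℝ :=
  -5 * (conj (bA ε A B s) ^ 2 * S6 c A (ε ^ 2 * B)).re +
    28 * bz A (ε ^ 2 * B) * (conj (bA ε A B s) * S8 c A (ε ^ 2 * B)).re +
    (bz A (ε ^ 2 * B) ^ 2 - ε ^ 2 * normSq (bA ε A B s) / 2) *
      (128 * ε ^ 2 * (s ^ 4).im - 44 * (S10 c A (ε ^ 2 * B)).re)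

lemma HH_eq_HA (ε c : ℝ) (A B s : ℂ) :
    HH ε c A (ε ^ 2 * B) (ε * s) = ε * HA ε c A B s := by
  simp only [HH, HA, map_mul, map_pow, conj_ofReal]
  ring

lemma bw_eq_bA (ε : ℝ) (A B s : ℂ) : bw A (ε ^ 2 * B) (ε * s) = ε * bA ε A B s := by
  simp only [bw, bA, map_mul, conj_ofReal]
  ring

lemma GG_eq_GA (ε c : ℝ) (A B s : ℂ) :
    GG ε c A (ε ^ 2 * B) (ε * s) = ε ^ 2 * GA ε c A B s := by
  have h1 : (conj (ε * bA ε A B s) ^ 2 * S6 c A (ε ^ 2 * B)).re =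
      ε ^ 2 * (conj (bA ε A B s) ^ 2 * S6 c A (ε ^ 2 * B)).re := by
    rw [map_mul, conj_ofReal, ← re_ofReal_mul]
    push_cast
    congr 1
    ring
  have h2 : (conj (ε * bA ε A B s) * S8 c A (ε ^ 2 * B)).re =
      ε * (conj (bA ε A B s) * S8 c A (ε ^ 2 * B)).re := by
    rw [map_mul, conj_ofReal, ← re_ofReal_mul]
    congr 1
    ring
  have h3 : normSq (ε * bA ε A B s) = ε ^ 2 * normSq (bA ε A B s) := by
    rw [map_mul, normSq_ofReal]; ring
  have h4 : ((ε * s) ^ 4).im = ε ^ 4 * (s ^ 4).im := by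
    rw [mul_pow, ← im_ofReal_mul]
    push_cast
    rfl
  unfold GG GA
  rw [bw_eq_bA, h1, h2, h3, h4]
  ring

/-- The rescaled set of circles near the equator. -/
def KA : Set (ℂ × ℂ × ℂ × ℝ) :=
  {k | 3 / 4 ≤ ‖k.1‖ ∧ ‖k.1‖ ≤ 1 ∧ ‖k.2.1‖ ≤ 6000 ∧ ‖k.2.2.1‖ ≤ 64 ∧
    0 ≤ k.2.2.2 ∧ k.2.2.2 ≤ 1}

lemma KA_compact : IsCompact KA := by
  apply Metric.isCompact_of_isClosed_isBounded
  · refine IsClosed.and (isClosed_le (by fun_prop) (by fun_prop)) ?_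
    refine IsClosed.and (isClosed_le (by fun_prop) (by fun_prop)) ?_
    refine IsClosed.and (isClosed_le (by fun_prop) (by fun_prop)) ?_
    refine IsClosed.and (isClosed_le (by fun_prop) (by fun_prop)) ?_
    exact IsClosed.and (isClosed_le (by fun_prop) (by fun_prop))
      (isClosed_le (by fun_prop) (by fun_prop))
  · refine (Metric.isBounded_closedBall (x := (0 : ℂ × ℂ × ℂ × ℝ)) (r := 6000)).subset ?_
    rintro ⟨A, B, C, c⟩ ⟨h1, h2, h3, h4, h5, h6⟩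
    simp only at h1 h2 h3 h4 h5 h6
    rw [mem_closedBall_zero_iff, Prod.norm_def, Prod.norm_def, Prod.norm_def]
    have hc : ‖c‖ ≤ 1 := by rw [Real.norm_eq_abs, abs_of_nonneg h5]; exact h6
    refine max_le ?_ (max_le ?_ (max_le ?_ ?_))
    · simp only; linarith
    · simp only; linarith
    · simp only; linarith
    · simp only; linarith

lemma KA_zero {A B s : ℂ} {c : ℝ} (hk : (A, B, s, c) ∈ KA) (hA : ‖A‖ = 1) :
    ¬ (HA 0 c A B s = 0 ∧ GA 0 c A B s = 0) := by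
  obtain ⟨-, -, -, -, h5, h6⟩ := hk
  simp only at h5 h6
  rintro ⟨hH, hG⟩
  have hAA : A * conj A = 1 := by
    rw [mul_conj, normSq_eq_norm_sq, hA]; norm_num
  have hH' : A ^ 3 * s + 4 * c * A ^ 6 - conj A ^ 4 = 0 := by
    rw [← hH, HA]; push_cast; ring
  have hs : s = conj A ^ 7 - 4 * c * A ^ 3 := by
    have e3 : (A * conj A) ^ 3 = 1 := by rw [hAA]; norm_num
    linear_combination (conj A ^ 3) * hH' - (s + 4 * c * A ^ 3) * e3
  have hb : conj (bA 0 A B s) = - 2 * (s * conj A) := by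
    have h2 : conj (2 : ℂ) = 2 := map_ofNat _ 2
    rw [bA]
    simp only [map_mul, map_sub, Complex.conj_conj, h2]
    simp
  have hbz : bz A (((0 : ℝ) : ℂ) ^ 2 * B) = 1 := by
    rw [bz, normSq_eq_norm_sq, hA]; simp
  have hS6 : S6 c A (((0 : ℝ) : ℂ) ^ 2 * B) = 8 * c * A ^ 6 := by
    rw [S6]; push_cast; ring
  have hS8 : S8 c A (((0 : ℝ) : ℂ) ^ 2 * B) = (24 * c ^ 2 - 4) * A ^ 8 := by
    rw [S8]; push_cast; ring
  have hS10 : S10 c A (((0 : ℝ) : ℂ) ^ 2 * B) = (64 * c ^ 3 - 24 * c) * A ^ 10 := by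
    rw [S10]; push_cast; ring
  have e1 : conj (bA 0 A B s) ^ 2 * (8 * c * A ^ 6) =
      32 * c * (conj A ^ 10 - 8 * c + 16 * c ^ 2 * A ^ 10) := by
    rw [hb, hs]
    have p2 : (A * conj A) ^ 2 = 1 := by rw [hAA]; norm_num
    have p6 : (A * conj A) ^ 6 = 1 := by rw [hAA]; norm_num
    have p9 : (A * conj A) ^ 9 = 1 := by rw [hAA]; norm_num
    have t1 : conj A ^ 14 * conj A ^ 2 * A ^ 6 = conj A ^ 10 := by
      linear_combination (conj A ^ 10) * p6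
    have t2 : conj A ^ 7 * A ^ 3 * conj A ^ 2 * A ^ 6 = 1 := by
      linear_combination p9
    have t3 : A ^ 6 * conj A ^ 2 * A ^ 6 = A ^ 10 := by
      linear_combination (A ^ 10) * p2
    linear_combination (32 * c : ℂ) * t1 - (32 * c * (8 * c) : ℂ) * t2 +
      (32 * c * (16 * c ^ 2) : ℂ) * t3
  have e2 : conj (bA 0 A B s) * ((24 * c ^ 2 - 4) * A ^ 8) =
      -2 * (24 * c ^ 2 - 4) * (1 - 4 * c * A ^ 10) := by
    rw [hb, hs]
    have p1 : (A * conj A) ^ 1 = 1 := by rw [hAA]; norm_num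
    have p8 : (A * conj A) ^ 8 = 1 := by rw [hAA]; norm_num
    linear_combination (-2 * (24 * c ^ 2 - 4) : ℂ) * p8 +
      (8 * c * (24 * c ^ 2 - 4) * A ^ 10 : ℂ) * p1
  rw [GA, hbz, hS6, hS8, hS10, e1, e2] at hG
  have r10 : (conj A ^ 10).re = (A ^ 10).re := by
    rw [← map_pow, conj_re]
  have f1 : (32 * (c : ℂ) * (conj A ^ 10 - 8 * c + 16 * c ^ 2 * A ^ 10)).re =
      32 * c * ((A ^ 10).re - 8 * c + 16 * c ^ 2 * (A ^ 10).re) := by
    have : (32 * (c : ℂ) * (conj A ^ 10 - 8 * c + 16 * c ^ 2 * A ^ 10)) =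
        ((32 * c : ℝ) : ℂ) * (conj A ^ 10 - ((8 * c : ℝ) : ℂ) + ((16 * c ^ 2 : ℝ) : ℂ) * A ^ 10) := by
      push_cast; ring
    rw [this, re_ofReal_mul, add_re, sub_re, re_ofReal_mul, ofReal_re, r10]
  have f2 : (-2 * (24 * (c : ℂ) ^ 2 - 4) * (1 - 4 * c * A ^ 10)).re =
      -2 * (24 * c ^ 2 - 4) * (1 - 4 * c * (A ^ 10).re) := by
    have : (-2 * (24 * (c : ℂ) ^ 2 - 4) * (1 - 4 * c * A ^ 10)) =
        ((-2 * (24 * c ^ 2 - 4) : ℝ) : ℂ) * (1 - ((4 * c : ℝ) : ℂ) * A ^ 10) := by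
      push_cast; ring
    rw [this, re_ofReal_mul, sub_re, re_ofReal_mul, one_re]
  have f3 : ((64 * (c : ℂ) ^ 3 - 24 * c) * A ^ 10).re = (64 * c ^ 3 - 24 * c) * (A ^ 10).re := by
    have : ((64 * (c : ℂ) ^ 3 - 24 * c) * A ^ 10) =
        ((64 * c ^ 3 - 24 * c : ℝ) : ℂ) * A ^ 10 := by
      push_cast; ring
    rw [this, re_ofReal_mul]
  rw [f1, f2, f3] at hG
  have : 224 - 64 * c ^ 2 = 0 := by
    rw [← hG]; ring
  nlinarith

lemma GA_cont : Continuous (fun p : ℝ × (ℂ × ℂ × ℂ × ℝ) =>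
    GA p.1 p.2.2.2.2 p.2.1 p.2.2.1 p.2.2.2.1) := by
  unfold GA bA
  have hA : Continuous (fun p : ℝ × (ℂ × ℂ × ℂ × ℝ) => p.2.1) := by fun_prop
  have hB : Continuous (fun p : ℝ × (ℂ × ℂ × ℂ × ℝ) => (p.1 : ℂ) ^ 2 * p.2.2.1) := by fun_prop
  have hC : Continuous (fun p : ℝ × (ℂ × ℂ × ℂ × ℝ) => p.2.2.2.1) := by fun_prop
  have hc : Continuous (fun p : ℝ × (ℂ × ℂ × ℂ × ℝ) => p.2.2.2.2) := by fun_prop
  have hs : Continuous (fun p : ℝ × (ℂ × ℂ × ℂ × ℝ) => conj p.2.2.2.1) :=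
    Complex.continuous_conj.comp hC
  have h1 : Continuous (fun p : ℝ × (ℂ × ℂ × ℂ × ℝ) =>
      2 * ((p.1 : ℂ) ^ 2 * (p.2.2.2.1 * p.2.2.1) - conj p.2.2.2.1 * p.2.1)) := by fun_prop
  have h2 := bz_cont hA hB
  have h3 := S6_cont hc hA hB
  have h4 := S8_cont hc hA hB
  have h5 := S10_cont hc hA hB
  have h6 := Complex.continuous_conj.comp h1
  have h7 := continuous_normSq.comp h1
  have e1 := Complex.continuous_re.comp ((h6.pow 2).mul h3)
  have e2 := Complex.continuous_re.comp (h6.mul h4)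
  have e3 := Complex.continuous_re.comp h5
  have e4 : Continuous (fun p : ℝ × (ℂ × ℂ × ℂ × ℝ) => (p.2.2.2.1 ^ 4).im) :=
    Complex.continuous_im.comp (hC.pow 4)
  simp only [Function.comp_def] at e1 e2 e3 h7
  fun_prop

lemma HA_cont : Continuous (fun p : ℝ × (ℂ × ℂ × ℂ × ℝ) =>
    HA p.1 p.2.2.2.2 p.2.1 p.2.2.1 p.2.2.2.1) := by
  unfold HA
  have h1 : Continuous (fun p : ℝ × (ℂ × ℂ × ℂ × ℝ) => conj p.2.2.2.1) :=
    Complex.continuous_conj.comp (by fun_prop)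
  have h2 : Continuous (fun p : ℝ × (ℂ × ℂ × ℂ × ℝ) => conj p.2.2.1) :=
    Complex.continuous_conj.comp (by fun_prop)
  have h3 : Continuous (fun p : ℝ × (ℂ × ℂ × ℂ × ℝ) => conj p.2.1) :=
    Complex.continuous_conj.comp (by fun_prop)
  fun_prop

lemma KA_eventually : ∀ᶠ e : ℝ in 𝓝 0, ∀ k ∈ KA, ‖k.1‖ + e ^ 2 * ‖k.2.1‖ = 1 →
    ¬ (HA e k.2.2.2 k.1 k.2.1 k.2.2.1 = 0 ∧ GA e k.2.2.2 k.1 k.2.1 k.2.2.1 = 0) := by
  have h := eventually_ne KA_compact (f := fun p : ℝ × (ℂ × ℂ × ℂ × ℝ) =>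
    |‖p.2.1‖ + p.1 ^ 2 * ‖p.2.2.1‖ - 1| +
    (‖HA p.1 p.2.2.2.2 p.2.1 p.2.2.1 p.2.2.2.1‖ + ‖GA p.1 p.2.2.2.2 p.2.1 p.2.2.1 p.2.2.2.1‖))
    (Continuous.add (by fun_prop) (HA_cont.norm.add GA_cont.norm)) (by
      rintro ⟨A, B, s, c⟩ hk h
      have h1 := norm_nonneg (HA 0 c A B s)
      have h2 := norm_nonneg (GA 0 c A B s)
      simp only at h
      have h3 := abs_nonneg (‖A‖ + 0 ^ 2 * ‖B‖ - 1)
      have h4 : |‖A‖ + 0 ^ 2 * ‖B‖ - 1| = 0 := by linarith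
      have h5 : ‖A‖ = 1 := by
        have := abs_eq_zero.mp h4
        linarith
      exact KA_zero hk h5 ⟨norm_eq_zero.mp (by linarith), norm_eq_zero.mp (by linarith)⟩)
  filter_upwards [h] with e he k hk h1 h
  apply he k hk
  simp [h.1, h.2, h1]

/-- The bound of `C` by `ε` when `|B|` is small. -/
lemma C_bound {ε c : ℝ} (hε : 0 < ε) {A B C : ℂ} (hAB : ‖A‖ + ‖B‖ = 1) (hB : ‖B‖ < 1 / 4)
    (h0 : 0 ≤ c) (h1 : c ≤ 1) (hH : HH ε c A B C = 0) : ‖C‖ ≤ 64 * ε := by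
  have hA : 3 / 4 < ‖A‖ := by linarith
  have hA1 : ‖A‖ ≤ 1 := by linarith [norm_nonneg B]
  have hB1 : ‖B‖ ≤ 1 := by linarith
  have e1 : A ^ 3 * C = conj C * B ^ 3 - ε * (4 * c * (A ^ 6 - B ^ 6) +
      6 * (A * B) * (A ^ 4 - B ^ 4) + (conj B ^ 4 - conj A ^ 4)) := by
    rw [HH] at hH
    linear_combination hH
  have p6 : ∀ n : ℕ, ‖A ^ n - B ^ n‖ ≤ 2 := by
    intro n
    refine (norm_sub_le _ _).trans ?_
    rw [norm_pow, norm_pow]
    have := pow_le_one₀ (norm_nonneg A) hA1 (n := n)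
    have := pow_le_one₀ (norm_nonneg B) hB1 (n := n)
    linarith
  have p4 : ‖conj B ^ 4 - conj A ^ 4‖ ≤ 2 := by
    rw [← map_pow, ← map_pow, ← map_sub, RCLike.norm_conj, norm_sub_rev]
    exact p6 4
  have hn : ‖A‖ ^ 3 * ‖C‖ ≤ ‖C‖ * ‖B‖ ^ 3 + ε * 22 := by
    calc ‖A‖ ^ 3 * ‖C‖ = ‖A ^ 3 * C‖ := by rw [norm_mul, norm_pow]
      _ ≤ ‖conj C * B ^ 3‖ + ‖ε * (4 * c * (A ^ 6 - B ^ 6) +
          6 * (A * B) * (A ^ 4 - B ^ 4) + (conj B ^ 4 - conj A ^ 4))‖ := by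
        rw [e1]; exact norm_sub_le _ _
      _ ≤ ‖C‖ * ‖B‖ ^ 3 + ε * (4 * 1 * 2 + 6 * (1 * 1) * 2 + 2) := by
        rw [norm_mul, norm_mul, norm_pow, RCLike.norm_conj, Complex.norm_real, Real.norm_eq_abs,
          abs_of_pos hε]
        gcongr
        refine (norm_add_le _ _).trans ?_
        gcongr
        refine (norm_add_le _ _).trans ?_
        rw [norm_mul, norm_mul, norm_mul, norm_mul, norm_mul, Complex.norm_real,
          Real.norm_eq_abs, abs_of_nonneg h0]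
        have n4 : ‖(4 : ℂ)‖ = 4 := by norm_num
        have n6 : ‖(6 : ℂ)‖ = 6 := by norm_num
        rw [n4, n6]
        gcongr
        · exact p6 6
        · exact p6 4
      _ = ‖C‖ * ‖B‖ ^ 3 + ε * 22 := by norm_num
  have hA3 : (27 : ℝ) / 64 ≤ ‖A‖ ^ 3 := by
    have : ((3 : ℝ) / 4) ^ 3 ≤ ‖A‖ ^ 3 := by gcongr
    linarith
  have hB3 : ‖B‖ ^ 3 ≤ 1 / 64 := by
    have : ‖B‖ ^ 3 ≤ ((1 : ℝ) / 4) ^ 3 := by gcongr
    linarith
  have hC := norm_nonneg C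
  nlinarith

/-- Claim: for small `ε > 0` the two defects have no common zero. -/
theorem star : ∃ ε : ℝ, 0 < ε ∧ ∀ (A B C : ℂ) (c : ℝ), C ^ 2 = - (A * conj B) →
    ‖A‖ + ‖B‖ = 1 → 0 ≤ c → c ≤ 1 → ¬ (HH ε c A B C = 0 ∧ GG ε c A B C = 0) := by
  have h1 := KB_eventually
  have h2 := KA_eventually
  have h3 : ∀ᶠ e : ℝ in 𝓝[>] 0, 0 < e := eventually_mem_nhdsWithin
  have h4 := ((h1.and h2).filter_mono nhdsWithin_le_nhds).and h3
  obtain ⟨ε, ⟨hB, hA⟩, hε⟩ := h4.exists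
  refine ⟨ε, hε, ?_⟩
  have key : ∀ (A B C : ℂ) (c : ℝ), C ^ 2 = - (A * conj B) →
      ‖A‖ + ‖B‖ = 1 → 0 ≤ c → c ≤ 1 → ‖B‖ ≤ ‖A‖ → ¬ (HH ε c A B C = 0 ∧ GG ε c A B C = 0) := by
    intro A B C c hC hAB h0 h1 hle
    by_cases hb : 1 / 4 ≤ ‖B‖
    · exact hB (A, B, C, c) ⟨hAB, hb, hb.trans hle, hC, h0, h1⟩
    · rintro ⟨hH, hG⟩
      have hb' : ‖B‖ < 1 / 4 := not_le.mp hb
      have hCb := C_bound hε hAB hb' h0 h1 hH
      have hA34 : 3 / 4 ≤ ‖A‖ := by linarith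
      have hA1 : ‖A‖ ≤ 1 := by linarith [norm_nonneg B]
      set s : ℂ := C / ε with hs
      set B' : ℂ := B / ε ^ 2 with hB'
      have hε' : (ε : ℂ) ≠ 0 := by exact_mod_cast hε.ne'
      have hCs : C = ε * s := by rw [hs]; field_simp
      have hBB : B = ε ^ 2 * B' := by rw [hB']; field_simp
      have hns : ‖s‖ ≤ 64 := by
        rw [hs, norm_div, Complex.norm_real, Real.norm_eq_abs, abs_of_pos hε, div_le_iff₀ hε]
        exact hCb
      have hnB : ‖B‖ = ε ^ 2 * ‖B'‖ := by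
        rw [hBB, norm_mul, norm_pow, Complex.norm_real, Real.norm_eq_abs, abs_of_pos hε]
      have hnB' : ‖B'‖ ≤ 6000 := by
        have e1 := norm_C hC
        have e2 : ‖C‖ = ε * ‖s‖ := by
          rw [hCs, norm_mul, Complex.norm_real, Real.norm_eq_abs, abs_of_pos hε]
        rw [e2, hnB] at e1
        have e3 : ‖s‖ ^ 2 = ‖A‖ * ‖B'‖ := by
          have : ε ^ 2 * ‖s‖ ^ 2 = ε ^ 2 * (‖A‖ * ‖B'‖) := by linarith
          exact mul_left_cancel₀ (by positivity) this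
        have e4 : ‖s‖ ^ 2 ≤ 64 ^ 2 := by gcongr
        nlinarith [norm_nonneg B']
      refine hA (A, B', s, c) ⟨hA34, hA1, hnB', hns, h0, h1⟩ (by
        simp only; rw [← hnB]; exact hAB) ⟨?_, ?_⟩
      · rw [hCs, hBB, HH_eq_HA] at hH
        exact (mul_eq_zero.mp hH).resolve_left hε'
      · rw [hCs, hBB, GG_eq_GA] at hG
        exact (mul_eq_zero.mp hG).resolve_left (by positivity)
  intro A B C c hC hAB h0 h1
  rcases le_total ‖B‖ ‖A‖ with h | h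
  · exact key A B C c hC hAB h0 h1 h
  · have hC' : (conj C) ^ 2 = - (B * conj A) := by
      rw [← map_pow, hC, map_neg, map_mul, Complex.conj_conj]; ring
    have := key B A (conj C) c hC' (by rw [add_comm]; exact hAB) h0 h1 h
    rw [HH_swap, GG_swap, neg_eq_zero, neg_eq_zero] at this
    exact this

end

end Pool.Agent.TH638.Skew
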